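import Pool.Agent.Lib.MP_f82811_pr.HF.Defs
import Mathlib.Analysis.SpecialFunctions.Trigonometric.Series

/-!
# High temperature without degrees: the action of the conditional means
-/

set_option autoImplicit false

namespace Pool.Agent.Lib.MP_f82811_pr.HF

open Finset HT WC symmDiff Filter Topology

variable {V : Type*} [Fintype V] [DecidableEq V]

/-! ### Algebra -/

theorem act_nonneg {N : Finset V → ℝ} (hN : ∀ B, 0 ≤ N B) (g : (V → Bool) → ℝ) (C : Finset V) :
    0 ≤ act g N C := Finset.sum_nonneg fun _ _ => mul_nonneg (abs_nonneg _) (hN _)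

theorem act_mono {g : (V → Bool) → ℝ} {N N' : Finset V → ℝ} (h : ∀ B, N B ≤ N' B)
    (C : Finset V) : act g N C ≤ act g N' C :=
  Finset.sum_le_sum fun _ _ => mul_le_mul_of_nonneg_left (h _) (abs_nonneg _)

theorem act_mul_right (c : ℝ) (g : (V → Bool) → ℝ) (N : Finset V → ℝ) (C : Finset V) :
    act g (fun B => c * N B) C = c * act g N C := by
  unfold act
  rw [Finset.mul_sum]
  exact Finset.sum_congr rfl fun _ _ => by ring

theorem act_smul (c : ℝ) (g : (V → Bool) → ℝ) (N : Finset V → ℝ) (C : Finset V) :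
    act (fun σ => c * g σ) N C = |c| * act g N C := by
  unfold act
  rw [Finset.mul_sum]
  refine Finset.sum_congr rfl fun S _ => ?_
  rw [hat_smul, abs_mul, mul_assoc]

theorem act_add {N : Finset V → ℝ} (hN : ∀ B, 0 ≤ N B) (g h : (V → Bool) → ℝ) (C : Finset V) :
    act (fun σ => g σ + h σ) N C ≤ act g N C + act h N C := by
  unfold act
  rw [← Finset.sum_add_distrib]
  refine Finset.sum_le_sum fun S _ => ?_
  rw [hat_add, ← add_mul]
  exact mul_le_mul_of_nonneg_right (abs_add_le _ _) (hN _)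

theorem act_const (c : ℝ) (N : Finset V → ℝ) (C : Finset V) :
    act (fun _ => c) N C = |c| * N C := by
  unfold act
  rw [Finset.sum_eq_single ∅]
  · rw [hat_const, if_pos rfl]
    congr 2
    exact bot_symmDiff C
  · intro S _ hS
    rw [hat_const, if_neg hS, abs_zero, zero_mul]
  · intro h
    exact absurd (Finset.mem_univ _) h

theorem act_sp (v : V) (N : Finset V → ℝ) (C : Finset V) : act (sp v) N C = N ({v} ∆ C) := by
  have h0 : (sp v : (V → Bool) → ℝ) = chi {v} := by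
    funext σ
    rw [chi_single]
  unfold act
  rw [h0, Finset.sum_eq_single {v}]
  · rw [hat_chi, if_pos rfl, abs_one, one_mul]
  · intro S _ hS
    rw [hat_chi, if_neg hS, abs_zero, zero_mul]
  · intro h
    exact absurd (Finset.mem_univ _) h

theorem act_mul {N : Finset V → ℝ} (hN : ∀ B, 0 ≤ N B) (g h : (V → Bool) → ℝ) (C : Finset V) :
    act (fun σ => g σ * h σ) N C ≤ act g (fun B => act h N B) C := by
  unfold act
  calc ∑ S, |hat (fun σ => g σ * h σ) S| * N (S ∆ C)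
      ≤ ∑ S, ∑ T, |hat g T| * (|hat h (S ∆ T)| * N (S ∆ C)) := by
        refine Finset.sum_le_sum fun S _ => ?_
        have h1 : |hat (fun σ => g σ * h σ) S| ≤ ∑ T, |hat g T| * |hat h (S ∆ T)| := by
          rw [hat_mul]
          refine (Finset.abs_sum_le_sum_abs _ _).trans (le_of_eq ?_)
          exact Finset.sum_congr rfl fun T _ => abs_mul _ _
        refine (mul_le_mul_of_nonneg_right h1 (hN _)).trans (le_of_eq ?_)
        rw [Finset.sum_mul]
        exact Finset.sum_congr rfl fun T _ => by ring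
    _ = ∑ T, |hat g T| * ∑ S, |hat h S| * N (S ∆ (T ∆ C)) := by
        rw [Finset.sum_comm]
        refine Finset.sum_congr rfl fun T _ => ?_
        rw [← Finset.mul_sum]
        congr 1
        refine Fintype.sum_bijective (fun S => S ∆ T)
          (Function.Involutive.bijective fun S => symmDiff_symmDiff_cancel_right _ S) _ _
          (fun S => ?_)
        have h2 : S ∆ T ∆ (T ∆ C) = S ∆ C := by
          rw [symmDiff_assoc, ← symmDiff_assoc T T C, symmDiff_self, bot_symmDiff]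
        rw [h2]

/-! ### Bounded actions -/

/-- The action is bounded by the translation by `D`. -/
def Bd (N : Finset V → ℝ) (D : Finset V) (g : (V → Bool) → ℝ) (c : ℝ) : Prop :=
  ∀ C, act g N C ≤ c * N (D ∆ C)

section

variable {N : Finset V → ℝ} {D D' : Finset V} {g h : (V → Bool) → ℝ} {a b : ℝ}

theorem Bd.mono (hN : ∀ B, 0 ≤ N B) (h1 : Bd N D g a) (hab : a ≤ b) : Bd N D g b :=
  fun C => (h1 C).trans (mul_le_mul_of_nonneg_right hab (hN _))

theorem Bd.smul (h1 : Bd N D g a) (c : ℝ) : Bd N D (fun σ => c * g σ) (|c| * a) := by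
  intro C
  rw [act_smul, mul_assoc]
  exact mul_le_mul_of_nonneg_left (h1 C) (abs_nonneg _)

theorem Bd.add (hN : ∀ B, 0 ≤ N B) (h1 : Bd N D g a) (h2 : Bd N D h b) :
    Bd N D (fun σ => g σ + h σ) (a + b) := by
  intro C
  refine (act_add hN g h C).trans ?_
  rw [add_mul]
  exact add_le_add (h1 C) (h2 C)

theorem Bd.mul (hN : ∀ B, 0 ≤ N B) (h1 : Bd N D g a) (h2 : Bd N D' h b) (hb : 0 ≤ b) :
    Bd N (D ∆ D') (fun σ => g σ * h σ) (a * b) := by
  intro C
  refine (act_mul hN g h C).trans ?_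
  have e1 : act g (fun B => act h N B) C ≤ act g (fun B => b * N (D' ∆ B)) C :=
    act_mono (fun B => h2 B) C
  refine e1.trans ?_
  rw [act_mul_right b g (fun B => N (D' ∆ B))]
  have e2 : act g (fun B => N (D' ∆ B)) C = act g N (D' ∆ C) := by
    unfold act
    refine Finset.sum_congr rfl fun S _ => ?_
    have e3 : D' ∆ (S ∆ C) = S ∆ (D' ∆ C) := by
      rw [← symmDiff_assoc, ← symmDiff_assoc, symmDiff_comm D' S]
    change |hat g S| * N (D' ∆ (S ∆ C)) = _
    rw [e3]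
  rw [e2]
  have e3 := mul_le_mul_of_nonneg_left (h1 (D' ∆ C)) hb
  rw [symmDiff_assoc]
  linarith

theorem Bd.const (c : ℝ) : Bd N ∅ (fun _ => c) |c| := by
  intro C
  rw [act_const]
  have : (∅ : Finset V) ∆ C = C := bot_symmDiff C
  rw [this]

theorem Bd.congr (h1 : Bd N D g a) (hD : D = D') : Bd N D' g a := by rw [← hD]; exact h1

theorem Bd.nonneg (hN : ∀ B, 0 < N B) (h1 : Bd N D g a) : 0 ≤ a := by
  have h2 := (act_nonneg (fun B => (hN B).le) g ∅).trans (h1 ∅)
  exact nonneg_of_mul_nonneg_left h2 (hN _)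

/-- Inverses. -/
theorem Bd.inv (hN : ∀ B, 0 < N B) {e : (V → Bool) → ℝ} {c : ℝ} (he : Bd N ∅ e c) (hc : c < 1)
    (heh : ∀ σ, h σ * (1 + e σ) = 1) : Bd N ∅ h (1 / (1 - c)) := by
  have hN0 : ∀ B, 0 ≤ N B := fun B => (hN B).le
  have hc0 := he.nonneg hN
  obtain ⟨B, -, hB⟩ := Finset.exists_max_image (Finset.univ : Finset (Finset V))
    (fun C => act h N C / N C) ⟨∅, Finset.mem_univ _⟩
  set K := act h N B / N B with hK
  have hle : Bd N ∅ h K := fun C => by
    have := hB C (Finset.mem_univ C)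
    rw [div_le_iff₀ (hN C)] at this
    have h0 : (∅ : Finset V) ∆ C = C := bot_symmDiff C
    rw [h0]
    exact this
  have hK0 : 0 ≤ K := hle.nonneg hN
  refine hle.mono hN0 ?_
  rw [le_div_iff₀ (by linarith)]
  -- `h = 1 - e h`
  have h1 : h = fun σ => 1 + (-1) * (e σ * h σ) := by
    funext σ
    have := heh σ
    linarith
  have h2 : Bd N ∅ h (|1| + |(-1)| * (c * K)) := by
    have e1 := (he.mul hN0 hle hK0).congr (symmDiff_self _)
    have e2 := (Bd.const (N := N) 1).add hN0 (e1.smul (-1))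
    rw [← h1] at e2
    exact e2
  have h3 := h2 B
  have h0 : (∅ : Finset V) ∆ B = B := bot_symmDiff B
  rw [h0, abs_one, abs_neg, abs_one, one_mul] at h3
  have h4 : act h N B = K * N B := by rw [hK, div_mul_cancel₀ _ (hN B).ne']
  rw [h4] at h3
  have h5 := le_of_mul_le_mul_right h3 (hN B)
  linarith

/-- Limits. -/
theorem Bd.lim {gs : ℕ → (V → Bool) → ℝ} {c : ℕ → ℝ} (h1 : ∀ n, Bd N D (gs n) (c n))
    (h2 : ∀ σ, Tendsto (fun n => gs n σ) atTop (𝓝 (g σ))) (h3 : Tendsto c atTop (𝓝 a)) :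
    Bd N D g a := by
  intro C
  have h4 : Tendsto (fun n => act (gs n) N C) atTop (𝓝 (act g N C)) := by
    unfold act hat
    refine tendsto_finsetSum _ fun S _ => ?_
    refine Tendsto.mul_const _ (Tendsto.abs (Tendsto.div_const ?_ _))
    exact tendsto_finsetSum _ fun σ _ => (h2 σ).mul_const _
  exact le_of_tendsto_of_tendsto' h4 (h3.mul_const _) fun n => h1 n C

theorem Bd.zero (N : Finset V → ℝ) (D : Finset V) : Bd N D (fun _ => 0) 0 := by
  intro C
  rw [act_const, abs_zero, zero_mul, zero_mul]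

theorem Bd.sum (hN : ∀ B, 0 ≤ N B) {gs : ℕ → (V → Bool) → ℝ} {c : ℕ → ℝ}
    (h1 : ∀ n, Bd N D (gs n) (c n)) (n : ℕ) :
    Bd N D (fun σ => ∑ k ∈ range n, gs k σ) (∑ k ∈ range n, c k) := by
  induction n with
  | zero =>
    simp only [Finset.range_zero, Finset.sum_empty]
    exact Bd.zero N D
  | succ n ih =>
    simp only [Finset.sum_range_succ]
    exact ih.add hN (h1 n)

/-- Powers of an odd function. -/
theorem Bd.pow (hN : ∀ B, 0 ≤ N B) {v : V} {θ : (V → Bool) → ℝ} {q : ℝ} (hq : 0 ≤ q)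
    (h1 : Bd N {v} θ q) (n : ℕ) :
    Bd N ∅ (fun σ => θ σ ^ (2 * n)) (q ^ (2 * n)) ∧
      Bd N {v} (fun σ => θ σ ^ (2 * n + 1)) (q ^ (2 * n + 1)) := by
  have key : ∀ m : ℕ, Bd N ∅ (fun σ => θ σ ^ m) (q ^ m) → Bd N {v} (fun σ => θ σ ^ (m + 1))
      (q ^ (m + 1)) := by
    intro m hm
    have e1 := hm.mul hN h1 hq
    have e2 : (∅ : Finset V) ∆ {v} = {v} := bot_symmDiff _
    have e3 := e1.congr e2
    simp only [pow_succ]
    exact e3
  induction n with
  | zero =>
    have h0 : Bd N ∅ (fun σ => θ σ ^ (2 * 0)) (q ^ (2 * 0)) := by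
      have := Bd.const (N := N) 1
      rw [abs_one] at this
      simpa using this
    exact ⟨h0, key _ h0⟩
  | succ n ih =>
    have h0 : Bd N ∅ (fun σ => θ σ ^ (2 * (n + 1))) (q ^ (2 * (n + 1))) := by
      have e1 := ih.2.mul hN h1 hq
      have e3 := e1.congr (symmDiff_self _)
      have e4 : 2 * (n + 1) = 2 * n + 1 + 1 := by ring
      rw [e4]
      simp only [pow_succ _ (2 * n + 1)]
      exact e3
    exact ⟨h0, key _ h0⟩

theorem Bd.sinh (hN : ∀ B, 0 ≤ N B) {v : V} {θ : (V → Bool) → ℝ} {q : ℝ} (hq : 0 ≤ q)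
    (h1 : Bd N {v} θ q) : Bd N {v} (fun σ => Real.sinh (θ σ)) (Real.sinh q) := by
  have h2 : ∀ n : ℕ, Bd N {v} (fun σ => θ σ ^ (2 * n + 1) / ((2 * n + 1).factorial : ℝ))
      (q ^ (2 * n + 1) / ((2 * n + 1).factorial : ℝ)) := by
    intro n
    have h3 := ((Bd.pow hN hq h1 n).2).smul (1 / ((2 * n + 1).factorial : ℝ))
    rw [abs_of_nonneg (by positivity)] at h3
    have e1 : (fun σ => θ σ ^ (2 * n + 1) / ((2 * n + 1).factorial : ℝ)) =
        fun σ => 1 / ((2 * n + 1).factorial : ℝ) * θ σ ^ (2 * n + 1) := by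
      funext σ
      ring
    have e2 : q ^ (2 * n + 1) / ((2 * n + 1).factorial : ℝ) =
        1 / ((2 * n + 1).factorial : ℝ) * q ^ (2 * n + 1) := by ring
    rw [e1, e2]
    exact h3
  exact Bd.lim (fun n => Bd.sum hN h2 n)
    (fun σ => (Real.hasSum_sinh (θ σ)).tendsto_sum_nat) (Real.hasSum_sinh q).tendsto_sum_nat

theorem Bd.cosh (hN : ∀ B, 0 ≤ N B) {v : V} {θ : (V → Bool) → ℝ} {q : ℝ} (hq : 0 ≤ q)
    (h1 : Bd N {v} θ q) : Bd N ∅ (fun σ => Real.cosh (θ σ) - 1) (Real.cosh q - 1) := by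
  have h2 : ∀ n : ℕ, Bd N ∅ (fun σ => θ σ ^ (2 * (n + 1)) / ((2 * (n + 1)).factorial : ℝ))
      (q ^ (2 * (n + 1)) / ((2 * (n + 1)).factorial : ℝ)) := by
    intro n
    have h3 := ((Bd.pow hN hq h1 (n + 1)).1).smul (1 / ((2 * (n + 1)).factorial : ℝ))
    rw [abs_of_nonneg (by positivity)] at h3
    have e1 : (fun σ => θ σ ^ (2 * (n + 1)) / ((2 * (n + 1)).factorial : ℝ)) =
        fun σ => 1 / ((2 * (n + 1)).factorial : ℝ) * θ σ ^ (2 * (n + 1)) := by
      funext σ
      ring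
    have e2 : q ^ (2 * (n + 1)) / ((2 * (n + 1)).factorial : ℝ) =
        1 / ((2 * (n + 1)).factorial : ℝ) * q ^ (2 * (n + 1)) := by ring
    rw [e1, e2]
    exact h3
  have h4 : ∀ r : ℝ, Tendsto (fun n => ∑ k ∈ range n, r ^ (2 * (k + 1)) /
      ((2 * (k + 1)).factorial : ℝ)) atTop (𝓝 (Real.cosh r - 1)) := by
    intro r
    have h5 := (Real.hasSum_cosh r).tendsto_sum_nat
    have h6 := (h5.comp (tendsto_add_atTop_nat 1)).sub_const 1
    refine h6.congr fun n => ?_
    simp only [Function.comp]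
    rw [Finset.sum_range_succ']
    simp
  exact Bd.lim (fun n => Bd.sum hN h2 n) (fun σ => h4 (θ σ)) (h4 q)

/-- Hyperbolic tangents. -/
theorem Bd.tanh (hN : ∀ B, 0 < N B) {v : V} {θ : (V → Bool) → ℝ} {q : ℝ} (hq : 0 ≤ q)
    (hq1 : Real.cosh q < 2) (h1 : Bd N {v} θ q) :
    Bd N {v} (fun σ => Real.tanh (θ σ)) (Real.sinh q * (1 / (1 - (Real.cosh q - 1)))) := by
  have hN0 : ∀ B, 0 ≤ N B := fun B => (hN B).le
  have h2 : Bd N ∅ (fun σ => 1 / (1 + (Real.cosh (θ σ) - 1))) (1 / (1 - (Real.cosh q - 1))) := by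
    refine (Bd.cosh hN0 hq h1).inv hN (by linarith) fun σ => ?_
    refine one_div_mul_cancel ?_
    have := Real.cosh_pos (θ σ)
    linarith
  have h3 := (Bd.sinh hN0 hq h1).mul hN0 h2 (one_div_nonneg.2 (by linarith))
  have h4 := h3.congr (show ({v} : Finset V) ∆ ∅ = {v} from symmDiff_bot _)
  have e1 : (fun σ => Real.tanh (θ σ)) = fun σ => Real.sinh (θ σ) *
      (1 / (1 + (Real.cosh (θ σ) - 1))) := by
    funext σ
    rw [Real.tanh_eq_sinh_div_cosh]
    have e2 : 1 + (Real.cosh (θ σ) - 1) = Real.cosh (θ σ) := by ring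
    rw [e2, mul_one_div]
  rw [e1]
  exact h4

end

/-! ### Numbers -/

theorem exp_two_fifths : Real.exp (2 / 5) ≤ 1492 / 1000 := by
  have h1 : Real.exp (2 / 5) ^ 5 = Real.exp 1 ^ 2 := by
    rw [← Real.exp_nat_mul, ← Real.exp_nat_mul]
    norm_num
  have h2 : Real.exp 1 < 2.7182818286 := Real.exp_one_lt_d9
  have h3 : Real.exp 1 ^ 2 ≤ 2.7182818286 ^ 2 :=
    pow_le_pow_left₀ (Real.exp_pos 1).le h2.le 2
  refine le_of_pow_le_pow_left₀ (n := 5) (by norm_num) (by norm_num) ?_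
  rw [h1]
  refine h3.trans ?_
  norm_num

theorem sinh_two_fifths : Real.sinh (2 / 5) ≤ 411 / 1000 := by
  rw [Real.sinh_eq, Real.exp_neg]
  have h1 := exp_two_fifths
  have h2 : (0 : ℝ) < Real.exp (2 / 5) := Real.exp_pos _
  have h3 : (1492 / 1000 : ℝ)⁻¹ ≤ (Real.exp (2 / 5))⁻¹ := inv_anti₀ h2 h1
  have h4 : (670 / 1000 : ℝ) ≤ (1492 / 1000 : ℝ)⁻¹ := by norm_num
  linarith

theorem cosh_two_fifths : Real.cosh (2 / 5) ≤ 10812 / 10000 := by
  rw [Real.cosh_eq, Real.exp_neg]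
  have h1 := exp_two_fifths
  have h2 : (1 : ℝ) ≤ Real.exp (2 / 5) := Real.one_le_exp (by norm_num)
  have h0 : (0 : ℝ) < Real.exp (2 / 5) := by linarith
  have h3 : Real.exp (2 / 5) * (Real.exp (2 / 5))⁻¹ = 1 := mul_inv_cancel₀ h0.ne'
  have h4 : Real.exp (2 / 5) + (Real.exp (2 / 5))⁻¹ ≤ 2 * (10812 / 10000) := by
    refine le_of_mul_le_mul_left ?_ h0
    rw [mul_add, h3]
    nlinarith
  linarith

theorem phi_le : Real.sinh (2 / 5) * (1 / (1 - (Real.cosh (2 / 5) - 1))) ≤ 9 / 20 := by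
  have h1 := sinh_two_fifths
  have h2 := cosh_two_fifths
  rw [mul_one_div, div_le_iff₀ (by linarith)]
  linarith

/-! ### The conditional means -/

section

variable {A : V → V → ℝ} {N : Finset V → ℝ}

theorem bd_fld (hA : Coup A) {q : ℝ} (hN : Avg A N q) (v : V) (s : Finset V) :
    Bd N {v} (fun σ => ∑ u ∈ s, A v u * sp u σ) q := by
  intro C
  have h1 : act (fun σ => ∑ u ∈ s, A v u * sp u σ) N C ≤ ∑ u ∈ s, A v u * N ({u} ∆ C) := by
    induction s using Finset.induction_on with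
    | empty =>
      simp only [Finset.sum_empty]
      rw [act_const, abs_zero, zero_mul]
    | insert i s hi ih =>
      simp only [Finset.sum_insert hi]
      refine (act_add hN.nonneg (fun σ => A v i * sp i σ) _ C).trans ?_
      rw [act_smul, act_sp, abs_of_nonneg (hA.nonneg v i)]
      linarith
  refine h1.trans (le_trans ?_ (hN.step v C))
  exact Finset.sum_le_sum_of_subset_of_nonneg (Finset.subset_univ _) fun u _ _ =>
    mul_nonneg (hA.nonneg v u) (hN.nonneg _)

theorem bd_tanh_sum (hA : Coup A) (hpos : ∀ B, 0 < N B) (hN : Avg A N (2 / 5)) (v : V)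
    (s : Finset V) :
    Bd N {v} (fun σ => Real.tanh (∑ u ∈ s, A v u * sp u σ)) (9 / 20) := by
  refine Bd.mono hN.nonneg ?_ phi_le
  refine Bd.tanh hpos (by norm_num) ?_ (bd_fld hA hN v s)
  exact lt_of_le_of_lt cosh_two_fifths (by norm_num)

theorem bd_D_tau (hA : Coup A) (hrow : ∀ v, ∑ u, A v u ≤ 1 / 10)
    (hpos : ∀ B, 0 < N B) (hN : Avg A N (2 / 5)) (v i : V) :
    Bd N ∅ (fun σ => D i (tau A v) σ - Real.tanh (A v i)) (A v i * (2051 / 10000)) := by
  set T : (V → Bool) → ℝ := fun σ => Real.tanh (∑ u ∈ univ.erase i, A v u * sp u σ) with hT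
  set t := Real.tanh (A v i) with ht
  have hAvi : A v i ≤ 1 / 10 :=
    (Finset.single_le_sum (fun u _ => hA.nonneg v u) (Finset.mem_univ i)).trans (hrow v)
  have ht0 : 0 ≤ t := by
    have h1 : Real.tanh 0 ≤ Real.tanh (A v i) := tanh_mono (hA.nonneg v i)
    rwa [Real.tanh_zero] at h1
  have ht1 : t ≤ A v i := by
    have h1 := abs_tanh_le (A v i)
    rw [abs_of_nonneg ht0, abs_of_nonneg (hA.nonneg v i)] at h1
    exact h1
  have ht4 : t ^ 2 ≤ 1 / 16 := by nlinarith
  have hTb : Bd N {v} T (9 / 20) := bd_tanh_sum hA hpos hN v _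
  have hTT : Bd N ∅ (fun σ => T σ * T σ) (9 / 20 * (9 / 20)) :=
    (hTb.mul hN.nonneg hTb (by norm_num)).congr (symmDiff_self _)
  -- the values of the field
  have hfld : ∀ (σ : V → Bool) (b : Bool), fld A v (Function.update σ i b) =
      A v i * spin b + ∑ u ∈ univ.erase i, A v u * sp u σ := by
    intro σ b
    unfold fld
    rw [← Finset.add_sum_erase _ _ (Finset.mem_univ i), sp_update_self]
    congr 1
    refine Finset.sum_congr rfl fun x hx => ?_
    rw [sp_update_ne (Finset.ne_of_mem_erase hx)]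
  have hlt : ∀ σ, t ^ 2 * T σ ^ 2 < 1 := by
    intro σ
    have h1 := tanh_sq_lt_one (∑ u ∈ univ.erase i, A v u * sp u σ)
    have h2 : T σ ^ 2 < 1 := h1
    nlinarith [sq_nonneg (T σ), sq_nonneg t]
  have hform : (fun σ => D i (tau A v) σ - t) = fun σ =>
      -(t * (1 - t ^ 2)) * ((T σ * T σ) * (1 / (1 + (-(t ^ 2)) * (T σ * T σ)))) := by
    funext σ
    rw [← half_diff (T σ) t (hlt σ)]
    unfold D tau
    rw [hfld, hfld, spin_true, spin_false, mul_one, mul_neg, mul_one, tanh_add', tanh_add',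
      Real.tanh_neg]
    have e1 : (t + T σ) / (1 + t * T σ) = (T σ + t) / (1 + T σ * t) := by
      rw [add_comm t, mul_comm t]
    have e2 : (-t + T σ) / (1 + -t * T σ) = (T σ - t) / (1 - T σ * t) := by
      congr 1
      · ring
      · ring
    change ((t + T σ) / (1 + t * T σ) - (-t + T σ) / (1 + -t * T σ)) / 2 - t = _
    rw [e1, e2]
  rw [hform]
  have hq : |(-(t * (1 - t ^ 2)))| ≤ A v i := by
    rw [abs_neg, abs_of_nonneg (mul_nonneg ht0 (by linarith))]
    nlinarith [sq_nonneg t]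
  have he : Bd N ∅ (fun σ => (-(t ^ 2)) * (T σ * T σ)) (81 / 6400) := by
    refine (hTT.smul (-(t ^ 2))).mono hN.nonneg ?_
    rw [abs_neg, abs_of_nonneg (sq_nonneg t)]
    nlinarith [sq_nonneg t]
  have hinv : Bd N ∅ (fun σ => 1 / (1 + (-(t ^ 2)) * (T σ * T σ))) (1 / (1 - 81 / 6400)) := by
    refine he.inv hpos (by norm_num) fun σ => one_div_mul_cancel ?_
    have h2 := hlt σ
    have h3 : (-(t ^ 2)) * (T σ * T σ) = -(t ^ 2 * T σ ^ 2) := by ring
    rw [h3]
    intro h4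
    linarith
  have hprod := (hTT.mul hN.nonneg hinv (by norm_num)).congr (symmDiff_self _)
  refine (hprod.smul _).mono hN.nonneg ?_
  refine mul_le_mul hq (by norm_num) (by norm_num) (hA.nonneg v i)

/-- Adding a constant. -/
theorem Avg.add_const (hN : Avg A N (2 / 5))
    (hrow : ∀ v, ∑ u, A v u ≤ 1 / 10) {η : ℝ} (hη0 : 0 ≤ η) :
    Avg A (fun B => N B + η) (2 / 5) := by
  refine ⟨fun B => add_nonneg (hN.nonneg B) hη0, fun v C => ?_⟩
  have e1 : ∑ u, A v u * (N ({u} ∆ C) + η) =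
      ∑ u, A v u * N ({u} ∆ C) + (∑ u, A v u) * η := by
    rw [Finset.sum_mul, ← Finset.sum_add_distrib]
    exact Finset.sum_congr rfl fun u _ => by ring
  rw [e1]
  have e2 := hN.step v C
  have e3 : (∑ u, A v u) * η ≤ 1 / 10 * η := mul_le_mul_of_nonneg_right (hrow v) hη0
  linarith

/-- From positive to nonnegative functions. -/
theorem bd_of_pos (hrow : ∀ v, ∑ u, A v u ≤ 1 / 10) {D : Finset V}
    {g : (V → Bool) → ℝ} {c : ℝ} (hN : Avg A N (2 / 5))
    (h : ∀ N' : Finset V → ℝ, (∀ B, 0 < N' B) → Avg A N' (2 / 5) → Bd N' D g c) :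
    Bd N D g c := by
  intro C
  refine le_of_forall_pos_le_add fun ε hε => ?_
  set η := ε / (|c| + 1) with hη
  have hc0 : 0 < |c| + 1 := by positivity
  have hη0 : 0 < η := div_pos hε hc0
  have h2 := h _ (fun B => add_pos_of_nonneg_of_pos (hN.nonneg B) hη0)
    (hN.add_const hrow hη0.le) C
  have h3 : act g N C ≤ act g (fun B => N B + η) C := act_mono (fun B => by linarith) C
  refine h3.trans (h2.trans ?_)
  have h4 : c * η ≤ ε := by
    calc c * η ≤ |c| * η := mul_le_mul_of_nonneg_right (le_abs_self c) hη0.le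
      _ ≤ (|c| + 1) * η := by nlinarith
      _ = ε := by rw [hη, mul_div_cancel₀ _ hc0.ne']
  linarith

theorem bd_tau (hA : Coup A) (hrow : ∀ v, ∑ u, A v u ≤ 1 / 10) (hN : Avg A N (2 / 5)) (v : V) :
    Bd N {v} (tau A v) (9 / 20) :=
  bd_of_pos hrow hN fun _ hpos hN' => bd_tanh_sum hA hpos hN' v univ

theorem act_tau (hA : Coup A) (hrow : ∀ v, ∑ u, A v u ≤ 1 / 10) (hN : Avg A N (2 / 5)) (v : V)
    (C : Finset V) : act (tau A v) N C ≤ 9 / 20 * N ({v} ∆ C) := bd_tau hA hrow hN v C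

theorem act_sq_tau (hA : Coup A) (hrow : ∀ v, ∑ u, A v u ≤ 1 / 10) (hN : Avg A N (2 / 5))
    (v : V) (C : Finset V) : act (fun σ => tau A v σ ^ 2) N C ≤ 81 / 400 * N C := by
  have h1 := bd_tau hA hrow hN v
  have h2 := ((h1.mul hN.nonneg h1 (by norm_num)).congr (symmDiff_self _)) C
  have e1 : (fun σ => tau A v σ ^ 2) = fun σ => tau A v σ * tau A v σ := by
    funext σ
    ring
  have h0 : (⊥ : Finset V) ∆ C = C := bot_symmDiff C
  rw [h0] at h2
  rw [e1]
  linarith

theorem act_D_tau (hA : Coup A) (hrow : ∀ v, ∑ u, A v u ≤ 1 / 10) (hN : Avg A N (2 / 5))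
    (v i : V) (C : Finset V) :
    act (fun σ => D i (tau A v) σ - Real.tanh (A v i)) N C ≤ A v i * (2051 / 10000) * N C := by
  have h1 := bd_of_pos hrow hN (fun _ hpos hN' => bd_D_tau hA hrow hpos hN' v i) C
  have h0 : (∅ : Finset V) ∆ C = C := bot_symmDiff C
  rw [h0] at h1
  exact h1

end

end Pool.Agent.Lib.MP_f82811_pr.HF
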