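import Pool.Agent.Lib.MP_f82811_pr.HF.Act
import Pool.Agent.Lib.MP_f82811_pr.WC.Coef

/-!
# High temperature without degrees: the higher Walsh coefficients of the eigenfunction
-/

set_option autoImplicit false

namespace Pool.Agent.Lib.MP_f82811_pr.HF

open Finset HT WC symmDiff

variable {V : Type*} [Fintype V] [DecidableEq V]

theorem act_D_eq (N : Finset V → ℝ) (i : V) (g : (V → Bool) → ℝ) (C : Finset V) :
    act (D i g) N C = ∑ S ∈ univ.filter (fun S : Finset V => i ∈ S),
      |hat g S| * N ((S.erase i) ∆ C) := by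
  unfold act
  rw [← sum_filter_mem i (fun B T => |hat g B| * N (T ∆ C))]
  refine Finset.sum_congr rfl fun T _ => ?_
  rw [hat_D]
  split_ifs <;> simp

theorem act_D_sub_const {N : Finset V → ℝ} (hN : ∀ B, 0 ≤ N B) (i : V) (g : (V → Bool) → ℝ)
    (t : ℝ) (C : Finset V) :
    ∑ S ∈ univ.filter (fun S : Finset V => i ∈ S ∧ 3 ≤ S.card),
      |hat g S| * N ((S.erase i) ∆ C) ≤ act (fun σ => D i g σ - t) N C := by
  have h0 : ∀ T : Finset V, 0 ≤ |hat (fun σ => D i g σ - t) T| * N (T ∆ C) := fun T =>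
    mul_nonneg (abs_nonneg _) (hN _)
  have h1 : ∀ S ∈ univ.filter (fun S : Finset V => i ∈ S ∧ 3 ≤ S.card),
      |hat g S| * N ((S.erase i) ∆ C) =
      |hat (fun σ => D i g σ - t) (S.erase i)| * N ((S.erase i) ∆ C) := by
    intro S hS
    rw [Finset.mem_filter] at hS
    have hne : S.erase i ≠ ∅ := by
      intro h0
      have := Finset.card_erase_of_mem hS.2.1
      rw [h0, Finset.card_empty] at this
      omega
    rw [hat_sub, hat_const, if_neg hne, sub_zero, hat_D, if_neg (Finset.notMem_erase i S),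
      Finset.insert_erase hS.2.1]
  rw [Finset.sum_congr rfl h1]
  have hsub : univ.filter (fun S : Finset V => i ∈ S ∧ 3 ≤ S.card) ⊆
      univ.filter (fun S : Finset V => i ∈ S) := by
    intro S hS
    rw [Finset.mem_filter] at hS ⊢
    exact ⟨hS.1, hS.2.1⟩
  have h2 := Finset.sum_le_sum_of_subset_of_nonneg (f := fun S : Finset V =>
    |hat (fun σ => D i g σ - t) (S.erase i)| * N ((S.erase i) ∆ C)) hsub
    (fun S _ _ => h0 _)
  refine h2.trans ?_
  have h3 := sum_filter_mem i (fun _ T => |hat (fun σ => D i g σ - t) T| * N (T ∆ C))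
  rw [← h3]
  unfold act
  refine Finset.sum_le_sum fun T _ => ?_
  split_ifs
  · exact h0 T
  · exact le_rfl

section

variable {A : V → V → ℝ} {N : Finset V → ℝ} {φ k3 : ℝ}

omit [Fintype V] in
theorem Wt_nonneg' (hN : ∀ B, 0 ≤ N B) (j i : V) (S : Finset V) : 0 ≤ Wt N j i S := by
  unfold Wt
  split_ifs
  · exact hN _
  · exact le_rfl

omit [Fintype V] in
theorem Wt_le' (hN : ∀ B, 0 ≤ N B) (j i : V) (S : Finset V) :
    Wt N j i S ≤ N ({j} ∆ (S.erase i)) := by
  unfold Wt
  split_ifs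
  · exact le_rfl
  · exact hN _

/-- The vertex `i` stays. -/
theorem inner_same (hN : ∀ B, 0 ≤ N B)
    (hφ : ∀ v C, act (tau A v) N C ≤ φ * N ({v} ∆ C)) (j : V) {i v : V} {B : Finset V}
    (hi : i ∈ B) (hv : v ∈ B) :
    ∑ S, |hat (tau A v) S| * Wt N j i (S ∆ (B.erase v)) ≤ φ * N ({j} ∆ (B.erase i)) := by
  have h1 : ∀ S, |hat (tau A v) S| * Wt N j i (S ∆ (B.erase v)) ≤
      |hat (tau A v) S| * N (S ∆ ({j} ∆ (B.erase v) ∆ {i})) := by
    intro S
    refine mul_le_mul_of_nonneg_left ?_ (abs_nonneg _)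
    by_cases hmem : i ∈ S ∆ (B.erase v)
    · refine (Wt_le' hN j i _).trans (le_of_eq ?_)
      congr 1
      rw [erase_eq_symmDiff hmem]
      ac_rfl
    · rw [Wt_of_notMem j hmem]
      exact hN _
  refine (Finset.sum_le_sum fun S _ => h1 S).trans ?_
  refine (hφ v _).trans (le_of_eq ?_)
  congr 2
  rw [erase_eq_symmDiff hi, erase_eq_symmDiff hv]
  have h2 : {v} ∆ ({j} ∆ (B ∆ {v}) ∆ {i}) = {v} ∆ {v} ∆ ({j} ∆ (B ∆ {i})) := by ac_rfl
  rw [h2, symmDiff_self, bot_symmDiff]

theorem inner_new (hA : Coup A) (hN : ∀ B, 0 ≤ N B)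
    (hd : ∀ v i C, act (fun σ => D i (tau A v) σ - Real.tanh (A v i)) N C ≤ A v i * k3 * N C)
    (j : V) {i v : V} {B : Finset V} (hi : i ∉ B) :
    ∑ S, |hat (tau A v) S| * Wt N j i (S ∆ (B.erase v)) ≤
      A v i * (1 + k3) * N ({j} ∆ (B.erase v)) := by
  have h1 : ∀ S, |hat (tau A v) S| * Wt N j i (S ∆ (B.erase v)) ≤
      if i ∈ S then |hat (tau A v) S| * N ((S.erase i) ∆ ({j} ∆ (B.erase v))) else 0 := by
    intro S
    split_ifs with hiS
    · refine mul_le_mul_of_nonneg_left ?_ (abs_nonneg _)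
      have hmem : i ∈ S ∆ (B.erase v) := by
        rw [Finset.mem_symmDiff]
        exact Or.inl ⟨hiS, fun h => hi (Finset.mem_of_mem_erase h)⟩
      refine (Wt_le' hN j i _).trans (le_of_eq ?_)
      congr 1
      rw [erase_eq_symmDiff hmem, erase_eq_symmDiff hiS]
      ac_rfl
    · rw [Wt_of_notMem j (i := i), mul_zero]
      rw [Finset.mem_symmDiff]
      rintro (h | h)
      · exact hiS h.1
      · exact hi (Finset.mem_of_mem_erase h.1)
  refine (Finset.sum_le_sum fun S _ => h1 S).trans ?_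
  rw [← Finset.sum_filter, ← act_D_eq]
  have h2 := act_add hN (fun σ => D i (tau A v) σ - Real.tanh (A v i))
    (fun _ => Real.tanh (A v i)) ({j} ∆ (B.erase v))
  rw [act_const] at h2
  have h3 : (fun σ => D i (tau A v) σ - Real.tanh (A v i) + Real.tanh (A v i)) =
      D i (tau A v) := by
    funext σ
    ring
  rw [h3] at h2
  have h4 : |Real.tanh (A v i)| ≤ A v i := by
    have := abs_tanh_le (A v i)
    rwa [abs_of_nonneg (hA.nonneg v i)] at this
  have h5 := hd v i ({j} ∆ (B.erase v))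
  have h6 := mul_le_mul_of_nonneg_right h4 (hN ({j} ∆ (B.erase v)))
  linarith

theorem inner_single (hN : ∀ B, 0 ≤ N B)
    (hd : ∀ v i C, act (fun σ => D i (tau A v) σ - Real.tanh (A v i)) N C ≤ A v i * k3 * N C)
    (j : V) {i v : V} (hi : i ≠ v) :
    ∑ S, |hat (tau A v) S| * Wt N j i (S ∆ (({v} : Finset V).erase v)) ≤
      A v i * k3 * N {j} := by
  have hi' : i ∉ ({v} : Finset V) := by simpa using hi
  have hem : ({v} : Finset V).erase v = ∅ := by simp
  have h1 : ∀ S, |hat (tau A v) S| * Wt N j i (S ∆ (({v} : Finset V).erase v)) ≤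
      if i ∈ S ∧ 3 ≤ S.card then |hat (tau A v) S| * N ((S.erase i) ∆ {j}) else 0 := by
    intro S
    rw [hem, ← Finset.bot_eq_empty, symmDiff_bot]
    split_ifs with hiS
    · refine mul_le_mul_of_nonneg_left ?_ (abs_nonneg _)
      refine (Wt_le' hN j i _).trans (le_of_eq ?_)
      rw [symmDiff_comm]
    · unfold Wt
      rw [if_neg hiS, mul_zero]
  refine (Finset.sum_le_sum fun S _ => h1 S).trans ?_
  rw [← Finset.sum_filter]
  exact (act_D_sub_const hN i _ _ _).trans (hd v i {j})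

/-- The inner sums. -/
theorem inner_le {f : (V → Bool) → ℝ} (hA : Coup A) (hodd : ∀ σ, f (neg σ) = -f σ)
    (hN : ∀ B, 0 ≤ N B)
    (hφ : ∀ v C, act (tau A v) N C ≤ φ * N ({v} ∆ C))
    (hd : ∀ v i C, act (fun σ => D i (tau A v) σ - Real.tanh (A v i)) N C ≤ A v i * k3 * N C)
    (hk3 : 0 ≤ k3) (hφ0 : 0 ≤ φ) (j i v : V) {B : Finset V} (hv : v ∈ B) :
    |hat f B| * ∑ S, |hat (tau A v) S| * Wt N j i (S ∆ (B.erase v)) ≤
      |hat f B| * ((if i ∈ B ∧ i ≠ v then φ * N ({j} ∆ (B.erase i)) else 0) +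
        (if 3 ≤ B.card then A v i * (1 + k3) * N ({j} ∆ (B.erase v)) else 0) +
        (if B = {v} then A v i * k3 * N {j} else 0)) := by
  have hAv := hA.nonneg v i
  have p1 : 0 ≤ (if i ∈ B ∧ i ≠ v then φ * N ({j} ∆ (B.erase i)) else 0) := by
    split_ifs
    · exact mul_nonneg hφ0 (hN _)
    · exact le_rfl
  have p2 : 0 ≤ (if 3 ≤ B.card then A v i * (1 + k3) * N ({j} ∆ (B.erase v)) else 0) := by
    split_ifs
    · exact mul_nonneg (mul_nonneg hAv (by linarith)) (hN _)
    · exact le_rfl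
  have p3 : 0 ≤ (if B = {v} then A v i * k3 * N {j} else 0) := by
    split_ifs
    · exact mul_nonneg (mul_nonneg hAv hk3) (hN {j})
    · exact le_rfl
  by_cases hB : Odd B.card
  · refine mul_le_mul_of_nonneg_left ?_ (abs_nonneg _)
    by_cases hi : i ∈ B
    · by_cases hiv : i = v
      · subst hiv
        rw [inner_self hA]
        linarith
      · have h1 := inner_same (A := A) hN hφ j hi hv
        rw [if_pos ⟨hi, hiv⟩] at p1 ⊢
        linarith
    · by_cases h3 : 3 ≤ B.card
      · have h1 := inner_new hA hN hd j hi (v := v)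
        rw [if_pos h3] at p2 ⊢
        linarith
      · have hc : B.card = 1 := by
          obtain ⟨n, hn⟩ := hB
          omega
        obtain ⟨k, hk⟩ := Finset.card_eq_one.1 hc
        have hkv : B = {v} := by
          rw [hk] at hv ⊢
          rw [Finset.mem_singleton.1 hv]
        have hiv : i ≠ v := fun h => hi (by rw [h]; exact hv)
        have h1 := inner_single (A := A) hN hd j hiv
        rw [if_pos hkv] at p3 ⊢
        rw [hkv] at p1 p2 ⊢
        linarith
  · rw [Nat.not_odd_iff_even] at hB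
    rw [hat_odd hodd hB, abs_zero, zero_mul, zero_mul]

theorem FC_nonneg (hN : ∀ B, 0 ≤ N B) (f : (V → Bool) → ℝ) (j i : V) : 0 ≤ FC N f j i :=
  Finset.sum_nonneg fun _ _ => mul_nonneg (abs_nonneg _) (hN _)

/-- The linear inequality for the weighted sums. -/
theorem FC_le {f : (V → Bool) → ℝ} {lam : ℝ} (hA : Coup A) (h : Eig A f lam)
    (hodd : ∀ σ, f (neg σ) = -f σ)
    (hlam : lam ≤ 1) (hN : ∀ B, 0 ≤ N B)
    (hφ : ∀ v C, act (tau A v) N C ≤ φ * N ({v} ∆ C)) (hφ0 : 0 ≤ φ) (hφ1 : φ ≤ 1)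
    (hd : ∀ v i C, act (fun σ => D i (tau A v) σ - Real.tanh (A v i)) N C ≤ A v i * k3 * N C)
    (hk3 : 0 ≤ k3) (j i : V) :
    (2 - 2 * φ) * FC N f j i ≤
      (1 + k3) * ∑ v, A v i * FC N f j v + k3 * N {j} * ∑ v, A v i * |hat f {v}| := by
  -- the equation, with absolute values
  have h1 : ∀ B : Finset V, ((B.card : ℝ) - lam) * |hat f B| ≤
      ∑ v, ∑ B' ∈ univ.filter (fun B' : Finset V => v ∈ B'),
        |hat f B'| * |hat (tau A v) (B ∆ (B'.erase v))| := by
    intro B
    have e1 : ((B.card : ℝ) - lam) * |hat f B| ≤ |((B.card : ℝ) - lam) * hat f B| := by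
      rw [abs_mul]
      exact mul_le_mul_of_nonneg_right (le_abs_self _) (abs_nonneg _)
    refine e1.trans ?_
    rw [hat_eq h B]
    refine (Finset.abs_sum_le_sum_abs _ _).trans (Finset.sum_le_sum fun v _ => ?_)
    refine (Finset.abs_sum_le_sum_abs _ _).trans (le_of_eq ?_)
    exact Finset.sum_congr rfl fun B' _ => abs_mul _ _
  have h2 : ∑ B, (((B.card : ℝ) - lam) * |hat f B|) * Wt N j i B ≤
      ∑ v, ∑ B' ∈ univ.filter (fun B' : Finset V => v ∈ B'),
        |hat f B'| * ∑ S, |hat (tau A v) S| * Wt N j i (S ∆ (B'.erase v)) := by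
    calc ∑ B, (((B.card : ℝ) - lam) * |hat f B|) * Wt N j i B ≤
        ∑ B, (∑ v, ∑ B' ∈ univ.filter (fun B' : Finset V => v ∈ B'),
          |hat f B'| * |hat (tau A v) (B ∆ (B'.erase v))|) * Wt N j i B :=
          Finset.sum_le_sum fun B _ =>
            mul_le_mul_of_nonneg_right (h1 B) (Wt_nonneg' hN j i B)
      _ = ∑ v, ∑ B' ∈ univ.filter (fun B' : Finset V => v ∈ B'),
          ∑ B, |hat f B'| * (|hat (tau A v) (B ∆ (B'.erase v))| * Wt N j i B) := by
          simp only [Finset.sum_mul]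
          rw [Finset.sum_comm]
          refine Finset.sum_congr rfl fun v _ => ?_
          rw [Finset.sum_comm]
          refine Finset.sum_congr rfl fun B' _ => ?_
          exact Finset.sum_congr rfl fun B _ => by ring
      _ = _ := by
          refine Finset.sum_congr rfl fun v _ => Finset.sum_congr rfl fun B' _ => ?_
          rw [← Finset.mul_sum]
          congr 1
          exact Fintype.sum_bijective (fun B => B ∆ (B'.erase v))
            (Function.Involutive.bijective fun S => symmDiff_symmDiff_cancel_right _ S) _ _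
            (fun B => by rw [symmDiff_symmDiff_cancel_right])
  have h3 : ∑ v, ∑ B' ∈ univ.filter (fun B' : Finset V => v ∈ B'),
        |hat f B'| * ∑ S, |hat (tau A v) S| * Wt N j i (S ∆ (B'.erase v)) ≤
      ∑ v, ∑ B' ∈ univ.filter (fun B' : Finset V => v ∈ B'), |hat f B'| *
        ((if i ∈ B' ∧ i ≠ v then φ * N ({j} ∆ (B'.erase i)) else 0) +
        (if 3 ≤ B'.card then A v i * (1 + k3) * N ({j} ∆ (B'.erase v)) else 0) +
        (if B' = {v} then A v i * k3 * N {j} else 0)) :=
    Finset.sum_le_sum fun v _ => Finset.sum_le_sum fun B' hB' =>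
      inner_le hA hodd hN hφ hd hk3 hφ0 j i v (Finset.mem_filter.1 hB').2
  -- the three sums
  have s1 : ∑ v, ∑ B' ∈ univ.filter (fun B' : Finset V => v ∈ B'), |hat f B'| *
      (if i ∈ B' ∧ i ≠ v then φ * N ({j} ∆ (B'.erase i)) else 0) ≤
      ∑ B, (φ * ((B.card : ℝ) - 1) * |hat f B|) * Wt N j i B := by
    simp only [Finset.sum_filter]
    rw [Finset.sum_comm]
    refine Finset.sum_le_sum fun B _ => ?_
    by_cases hi : i ∈ B
    · have e1 : ∑ v, (if v ∈ B then |hat f B| *
          (if i ∈ B ∧ i ≠ v then φ * N ({j} ∆ (B.erase i)) else 0) else 0) =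
          ((B.card : ℝ) - 1) * (|hat f B| * (φ * N ({j} ∆ (B.erase i)))) := by
        have e2 : ∀ v, (if v ∈ B then |hat f B| *
          (if i ∈ B ∧ i ≠ v then φ * N ({j} ∆ (B.erase i)) else 0) else 0) =
          if v ∈ B.erase i then |hat f B| * (φ * N ({j} ∆ (B.erase i))) else 0 := by
          intro v
          by_cases hv : v ∈ B <;> by_cases hiv : i = v
          · simp [hv, hiv]
          · simp [hv, hiv, hi, Finset.mem_erase, Ne.symm hiv]
          · simp [hv]
          · simp [hv]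
        rw [Finset.sum_congr rfl fun v _ => e2 v, Finset.sum_ite_mem, Finset.univ_inter,
          Finset.sum_const, nsmul_eq_mul, Finset.card_erase_of_mem hi]
        have e3 : 1 ≤ B.card := Finset.card_pos.2 ⟨i, hi⟩
        rw [Nat.cast_sub e3, Nat.cast_one]
      rw [e1]
      by_cases h3 : 3 ≤ B.card
      · unfold Wt
        rw [if_pos ⟨hi, h3⟩]
        refine le_of_eq ?_
        ring
      · have e4 : ((B.card : ℝ) - 1) * |hat f B| = 0 := by
          have e3 : 1 ≤ B.card := Finset.card_pos.2 ⟨i, hi⟩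
          rcases Nat.lt_or_ge B.card 2 with h5 | h5
          · have : B.card = 1 := by omega
            rw [this]
            simp
          · have : B.card = 2 := by omega
            rw [hat_odd hodd (by rw [this]; exact even_two), abs_zero, mul_zero]
        have e5 : ((B.card : ℝ) - 1) * (|hat f B| * (φ * N ({j} ∆ (B.erase i)))) = 0 := by
          rw [← mul_assoc, e4, zero_mul]
        rw [e5]
        unfold Wt
        rw [if_neg (fun h' => h3 h'.2), mul_zero]
    · rw [Wt_of_notMem j hi, mul_zero]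
      refine le_of_eq (Finset.sum_eq_zero fun v _ => ?_)
      simp [hi]
  have s2 : ∑ v, ∑ B' ∈ univ.filter (fun B' : Finset V => v ∈ B'), |hat f B'| *
      (if 3 ≤ B'.card then A v i * (1 + k3) * N ({j} ∆ (B'.erase v)) else 0) =
      (1 + k3) * ∑ v, A v i * FC N f j v := by
    rw [Finset.mul_sum]
    refine Finset.sum_congr rfl fun v _ => ?_
    unfold FC
    rw [Finset.sum_filter, Finset.sum_filter, Finset.mul_sum, Finset.mul_sum]
    refine Finset.sum_congr rfl fun B _ => ?_
    by_cases hv : v ∈ B <;> by_cases h3 : 3 ≤ B.card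
    · simp only [hv, h3, if_true, and_self]
      ring
    · simp [hv, h3]
    · simp [hv]
    · simp [hv]
  have s3 : ∑ v, ∑ B' ∈ univ.filter (fun B' : Finset V => v ∈ B'), |hat f B'| *
      (if B' = {v} then A v i * k3 * N {j} else 0) =
      k3 * N {j} * ∑ v, A v i * |hat f {v}| := by
    rw [Finset.mul_sum]
    refine Finset.sum_congr rfl fun v _ => ?_
    rw [Finset.sum_eq_single {v}]
    · rw [if_pos rfl]
      ring
    · intro B _ hB
      rw [if_neg hB, mul_zero]
    · intro h'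
      exact absurd (by simp) h'
  have h4 : ∑ v, ∑ B' ∈ univ.filter (fun B' : Finset V => v ∈ B'), |hat f B'| *
        ((if i ∈ B' ∧ i ≠ v then φ * N ({j} ∆ (B'.erase i)) else 0) +
        (if 3 ≤ B'.card then A v i * (1 + k3) * N ({j} ∆ (B'.erase v)) else 0) +
        (if B' = {v} then A v i * k3 * N {j} else 0)) ≤
      ∑ B, (φ * ((B.card : ℝ) - 1) * |hat f B|) * Wt N j i B +
        (1 + k3) * ∑ v, A v i * FC N f j v + k3 * N {j} * ∑ v, A v i * |hat f {v}| := by
    simp only [mul_add, Finset.sum_add_distrib]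
    rw [← s2, ← s3]
    simp only [mul_add, add_mul] at s1 ⊢
    linarith
  have h5 := h2.trans (h3.trans h4)
  -- the left-hand side
  have h6 : (2 - 2 * φ) * FC N f j i ≤
      ∑ B, (((B.card : ℝ) - lam) * |hat f B|) * Wt N j i B -
        ∑ B, (φ * ((B.card : ℝ) - 1) * |hat f B|) * Wt N j i B := by
    rw [← Finset.sum_sub_distrib]
    have e1 : (2 - 2 * φ) * FC N f j i = ∑ B, ((2 - 2 * φ) * |hat f B|) * Wt N j i B := by
      rw [Wt_eq_mul]
      unfold FC
      rw [Finset.mul_sum]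
      exact Finset.sum_congr rfl fun B _ => by ring
    rw [e1]
    refine Finset.sum_le_sum fun B _ => ?_
    by_cases h3 : i ∈ B ∧ 3 ≤ B.card
    · have e2 : (3 : ℝ) ≤ B.card := by exact_mod_cast h3.2
      have e3 : 2 - 2 * φ ≤ ((B.card : ℝ) - lam) - φ * ((B.card : ℝ) - 1) := by nlinarith
      have e4 := mul_le_mul_of_nonneg_right e3
        (mul_nonneg (abs_nonneg (hat f B)) (Wt_nonneg' hN j i B))
      calc _ = (2 - 2 * φ) * (|hat f B| * Wt N j i B) := by ring
        _ ≤ _ := e4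
        _ = _ := by ring
    · have e2 : Wt N j i B = 0 := by
        unfold Wt
        rw [if_neg h3]
      rw [e2]
      simp
  linarith

theorem coef_bound' {f : (V → Bool) → ℝ} {lam r1 m M2 : ℝ} {y : V → ℝ} (hA : Coup A)
    (h : Eig A f lam) (hodd : ∀ σ, f (neg σ) = -f σ)
    (hlam : lam ≤ 1) (hN : ∀ B, 0 ≤ N B)
    (hφ : ∀ v C, act (tau A v) N C ≤ φ * N ({v} ∆ C)) (hφ0 : 0 ≤ φ) (hφ1 : φ ≤ 1)
    (hd : ∀ v i C, act (fun σ => D i (tau A v) σ - Real.tanh (A v i)) N C ≤ A v i * k3 * N C)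
    (hk3 : 0 ≤ k3) (hy0 : ∀ v, 0 ≤ y v) (hy : ∀ i, ∑ v, A v i * y v ≤ r1 * y i)
    (hrow : ∀ v, ∑ u, A v u ≤ r1)
    (hm0 : 0 ≤ m) (hm : ∀ v, |hat f {v}| ≤ (1 + 2 * m) * y v) (hM2 : 0 ≤ M2)
    (hden : (1 + k3) * r1 < 2 - 2 * φ)
    (hM : k3 * (1 + 2 * m) * r1 ≤ M2 * (2 - 2 * φ - (1 + k3) * r1)) (j i : V) :
    FC N f j i ≤ M2 * y i * N {j} := by
  obtain ⟨a, -, ha⟩ := Finset.exists_max_image Finset.univ
    (fun i => FC N f j i - M2 * y i * N {j}) ⟨i, Finset.mem_univ i⟩
  have ha0 : FC N f j a - M2 * y a * N {j} ≤ 0 := by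
    by_contra hcon
    push Not at hcon
    set P := FC N f j a - M2 * y a * N {j} with hP
    have h1 := FC_le hA h hodd hlam hN hφ hφ0 hφ1 hd hk3 j a
    have h2 : ∑ v, A v a * FC N f j v ≤ M2 * N {j} * (r1 * y a) + r1 * P := by
      calc ∑ v, A v a * FC N f j v ≤ ∑ v, (M2 * N {j} * (A v a * y v) + A v a * P) := by
            refine Finset.sum_le_sum fun v _ => ?_
            have e1 := ha v (Finset.mem_univ v)
            have e2 : FC N f j v ≤ M2 * y v * N {j} + P := by linarith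
            have e3 := mul_le_mul_of_nonneg_left e2 (hA.nonneg v a)
            calc _ ≤ _ := e3
              _ = _ := by ring
        _ = M2 * N {j} * ∑ v, A v a * y v + (∑ v, A v a) * P := by
            rw [Finset.sum_add_distrib, Finset.mul_sum, Finset.sum_mul]
        _ ≤ _ := by
            have e1 := mul_le_mul_of_nonneg_left (hy a) (mul_nonneg hM2 (hN {j}))
            have e2 : ∑ v, A v a ≤ r1 := by
              have : ∑ v, A v a = ∑ v, A a v := Finset.sum_congr rfl fun v _ => hA.symm v a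
              rw [this]
              exact hrow a
            have e3 := mul_le_mul_of_nonneg_right e2 hcon.le
            linarith
    have h3 : ∑ v, A v a * |hat f {v}| ≤ (1 + 2 * m) * (r1 * y a) := by
      calc ∑ v, A v a * |hat f {v}| ≤ ∑ v, (1 + 2 * m) * (A v a * y v) := by
            refine Finset.sum_le_sum fun v _ => ?_
            have e3 := mul_le_mul_of_nonneg_left (hm v) (hA.nonneg v a)
            calc _ ≤ _ := e3
              _ = _ := by ring
        _ = (1 + 2 * m) * ∑ v, A v a * y v := by rw [Finset.mul_sum]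
        _ ≤ _ := mul_le_mul_of_nonneg_left (hy a) (by linarith)
    have h4 := mul_le_mul_of_nonneg_left h2 (show 0 ≤ 1 + k3 by linarith)
    have h5 := mul_le_mul_of_nonneg_left h3 (mul_nonneg hk3 (hN {j}))
    have h6 : FC N f j a = P + M2 * y a * N {j} := by rw [hP]; ring
    rw [h6] at h1
    have h7 := mul_le_mul_of_nonneg_right hM (mul_nonneg (hy0 a) (hN {j}))
    have h8 : (2 - 2 * φ) * P ≤ (1 + k3) * r1 * P := by nlinarith
    have h9 := le_of_mul_le_mul_right h8 hcon
    linarith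
  have h1 := ha i (Finset.mem_univ i)
  linarith

/-- The numerical version. -/
theorem coef_bound {f : (V → Bool) → ℝ} {lam : ℝ} {y : V → ℝ} (hA : Coup A)
    (hrow : ∀ v, ∑ u, A v u ≤ 1 / 10)
    (h : Eig A f lam) (hodd : ∀ σ, f (neg σ) = -f σ) (hlam : lam ≤ 1)
    (hN : Avg A N (2 / 5)) (hy0 : ∀ v, 0 ≤ y v) (hy : ∀ i, ∑ v, A v i * y v ≤ 10 / 99 * y i)
    (hm : ∀ v, |hat f {v}| ≤ 201 / 200 * y v) (j i : V) :
    FC N f j i ≤ 1 / 46 * y i * N {j} := by
  refine coef_bound' (φ := 9 / 20) (k3 := 2051 / 10000) (r1 := 10 / 99) (m := 1 / 400)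
    (M2 := 1 / 46) hA h hodd hlam hN.nonneg (act_tau hA hrow hN) (by norm_num) (by norm_num)
    (act_D_tau hA hrow hN) (by norm_num) hy0 hy (fun v => (hrow v).trans (by norm_num))
    (by norm_num) (fun v => (hm v).trans (le_of_eq (by norm_num))) (by norm_num) (by norm_num)
    (by norm_num) j i

end

end Pool.Agent.Lib.MP_f82811_pr.HF
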