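import Pool.Agent.Lib.MP_f82811_pr.WC.TanhNorm

/-!
# High temperature without degrees: definitions

The absolute Walsh coefficients of a function act on the nonnegative functions of sets.
-/

set_option autoImplicit false

namespace Pool.Agent.Lib.MP_f82811_pr.HF

open Finset HT WC symmDiff

variable {V : Type*} [Fintype V] [DecidableEq V]

/-- The action of the absolute Walsh coefficients. -/
noncomputable def act (g : (V → Bool) → ℝ) (N : Finset V → ℝ) (C : Finset V) : ℝ :=
  ∑ S, |hat g S| * N (S ∆ C)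

/-- The averaged inequality. -/
structure Avg (A : V → V → ℝ) (N : Finset V → ℝ) (q : ℝ) : Prop where
  nonneg : ∀ B, 0 ≤ N B
  step : ∀ v C, ∑ u, A v u * N ({u} ∆ C) ≤ q * N ({v} ∆ C)

/-- `y_v = σ_v ∑_u t_vu σ_u` with `t = (5/2) A`. -/
noncomputable def yy (A : V → V → ℝ) (v : V) (σ : V → Bool) : ℝ :=
  sp v σ * (5 / 2 * fld A v σ)

/-- The weight `Ξ = ∏ 1 / (1 - y_v)`. -/
noncomputable def Xi (A : V → V → ℝ) (σ : V → Bool) : ℝ := ∏ v, 1 / (1 - yy A v σ)

end Pool.Agent.Lib.MP_f82811_pr.HF
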