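import Pool.Agent.Lib.MP_f82811_pr.HT.EdgeM

/-!
# Raising the coupling of one edge, from the positivity for its pair
-/

set_option autoImplicit false

namespace Pool.Agent.Lib.MP_f82811_pr.HF

open Finset HT

variable {V : Type*} [Fintype V] [DecidableEq V]

/-- Raising the coupling of the edge `{i, j}` lowers the gap when the pair `{i, j}` has the
positivity property for monotone odd eigenfunctions. -/
theorem edge_mono_of [Nonempty V] (G : SimpleGraph V) [DecidableRel G.Adj] {J : Sym2 V → ℝ}
    (hJ : ∀ e ∈ G.edgeSet, 0 ≤ J e) {i j : V} (hadj : G.Adj i j)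
    (hcore : ∀ (f : (V → Bool) → ℝ) (lam : ℝ), Monotone f → (∀ σ, f (neg σ) = -f σ) →
      Eig (mat G J) f lam → (∃ k, XX f k ≠ 0) →
      0 ≤ ∑ σ, W (mat G J) σ * (sp i σ * sp j σ * defect (W (mat G J)) f σ))
    {y : ℝ} (hy : J s(i, j) ≤ y) :
    gap (gibbs G (Function.update J s(i, j) y)) ≤ gap (gibbs G J) := by
  have hA := coup_mat G (J := J) hJ
  have he : s(i, j) ∈ G.edgeSet := hadj
  obtain ⟨f, ρ, h1, h2, h3, h4, h5, h6, h7⟩ := exists_eig_inv hA
  have hE : Eig (mat G J) f ((Fintype.card V : ℝ) - ρ) := eig_of_ceSum hA h6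
  have hne : ∃ k, XX f k ≠ 0 := by
    by_contra hcon
    push Not at hcon
    have hD : ∀ k σ, D k f σ = 0 := fun k σ =>
      le_antisymm ((le_XX f k σ).trans (hcon k).le) (D_nonneg h3 k σ)
    have hconst : ∀ σ τ, f σ - f τ ≤ 0 := by
      intro σ τ
      have := osc_le (g := f) (B := fun _ => 0) (fun v σ => by rw [hD, abs_zero]) σ τ
      simpa using this
    have h0 : ∀ σ, f σ = 0 := by
      intro σ
      have e1 := hconst σ (neg σ)
      have e2 := hconst (neg σ) σ
      have e3 := h2 σ
      linarith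
    have : ip (W (mat G J)) f f = 0 := by
      unfold ip
      exact Finset.sum_eq_zero fun σ _ => by rw [h0 σ]; ring
    rw [h5] at this
    exact one_ne_zero this
  have hc := hcore f _ h3 h2 hE hne
  have hEq : G.edgeFinset = insert s(i, j) G.edgeFinset :=
    (Finset.insert_eq_of_mem (SimpleGraph.mem_edgeFinset.2 he)).symm
  have hw := weight_pair (G := G) (G' := G) (J := J) (J' := Function.update J s(i, j) y) hEq
    (fun e _ hne => Function.update_of_ne hne _ _)
  rw [Function.update_self, if_pos (SimpleGraph.mem_edgeFinset.2 he)] at hw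
  have h8 : weight G (Function.update J s(i, j) y) = fun σ => W (mat G J) σ *
      Real.exp ((y - J s(i, j)) * (sp i σ * sp j σ)) := by
    funext σ
    rw [hw σ, weight_eq_W]
    rfl
  rw [gibbs_eq, gibbs_eq, h8, weight_eq_W]
  refine gap_le_of_defect (W_pos _) (fun σ => W_neg σ) (W_fkg hA)
    (fun σ => mul_pos (W_pos _ σ) (Real.exp_pos _)) (fun σ => ?_) h2 h5 h6 h7 ?_
  · rw [W_neg, sp_neg, sp_neg, neg_mul_neg]
  · have e1 : ∑ σ, W (mat G J) σ * Real.exp ((y - J s(i, j)) * (sp i σ * sp j σ)) *
        defect (W (mat G J)) f σ =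
        Real.cosh (y - J s(i, j)) * ∑ σ, W (mat G J) σ * defect (W (mat G J)) f σ +
          Real.sinh (y - J s(i, j)) *
            ∑ σ, W (mat G J) σ * (sp i σ * sp j σ * defect (W (mat G J)) f σ) := by
      rw [Finset.mul_sum, Finset.mul_sum, ← Finset.sum_add_distrib]
      refine Finset.sum_congr rfl fun σ _ => ?_
      rw [exp_pair]
      ring
    rw [e1, sum_defect_zero (W_pos _), mul_zero, zero_add]
    exact mul_nonneg (Real.sinh_nonneg_iff.2 (by linarith)) hc

end Pool.Agent.Lib.MP_f82811_pr.HF
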