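import Pool.Agent.Lib.MP_f82811_pr.WC.Coef
import Pool.Agent.Lib.MP_f82811_pr.HT.Pair

/-!
# High temperature: positivity for all pairs, abstract form
-/

set_option autoImplicit false

namespace Pool.Agent.Lib.MP_f82811_pr.HF

open Finset HT WC symmDiff

variable {V : Type*} [Fintype V] [DecidableEq V]

theorem mom_single {A : V → V → ℝ} {f : (V → Bool) → ℝ} {lam : ℝ} (hA : Coup A)
    (h : Eig A f lam) (k : V) :
    lam * mom A f {k} = ∑ σ, W A σ * ((1 - tau A k σ ^ 2) * D k f σ) := by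
  have e1 : mom A f {k} = ∑ σ, W A σ * (f σ * sp k σ) := by
    unfold mom
    refine Finset.sum_congr rfl fun σ _ => ?_
    rw [chi_single]
    ring
  rw [e1, eig_pairing hA h (sp k), Finset.sum_eq_single k]
  · refine Finset.sum_congr rfl fun σ _ => ?_
    rw [D_sp_self, mul_one]
  · intro v _ hv
    refine Finset.sum_eq_zero fun σ _ => ?_
    rw [D_sp_ne (fun hc => hv hc.symm)]
    ring
  · intro hk
    exact absurd (Finset.mem_univ k) hk

theorem hat_single_eq (f : (V → Bool) → ℝ) (i : V) :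
    hat f {i} = (∑ σ, D i f σ) / 2 ^ Fintype.card V := by
  have h1 := hat_D i f ∅
  rw [if_neg (Finset.notMem_empty i), insert_empty_eq] at h1
  rw [← h1]
  unfold hat
  congr 1
  refine Finset.sum_congr rfl fun σ _ => ?_
  rw [chi_empty, mul_one]

theorem hat_single_bounds {f : (V → Bool) → ℝ} {i : V} {a b : ℝ} (ha : ∀ σ, a ≤ D i f σ)
    (hb : ∀ σ, D i f σ ≤ b) : a ≤ hat f {i} ∧ hat f {i} ≤ b := by
  rw [hat_single_eq]
  have hc : (0 : ℝ) < 2 ^ Fintype.card V := by positivity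
  have hcard : ((Finset.univ : Finset (V → Bool)).card : ℝ) = 2 ^ Fintype.card V := by
    rw [Finset.card_univ, Fintype.card_fun, Fintype.card_bool]
    push_cast
    rfl
  constructor
  · rw [le_div_iff₀ hc, ← hcard, mul_comm, ← nsmul_eq_mul]
    exact Finset.card_nsmul_le_sum _ _ _ fun σ _ => ha σ
  · rw [div_le_iff₀ hc, ← hcard, mul_comm, ← nsmul_eq_mul]
    exact Finset.sum_le_card_nsmul _ _ _ fun σ _ => hb σ

/-- The higher terms. -/
theorem sum_high_eq {f : (V → Bool) → ℝ} (hodd : ∀ σ, f (neg σ) = -f σ) (N : Finset V → ℝ)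
    (i j : V) :
    ∑ S ∈ univ.erase (∅ : Finset V), |hat (D i f) S| * N ({j} ∆ S) = FC N f j i := by
  have h1 := sum_filter_mem i (fun B T : Finset V => if T = ∅ then 0 else |hat f B| * N ({j} ∆ T))
  have h2 : ∑ S ∈ univ.erase (∅ : Finset V), |hat (D i f) S| * N ({j} ∆ S) =
      ∑ T : Finset V, (if i ∈ T then 0 else
        (if T = ∅ then 0 else |hat f (insert i T)| * N ({j} ∆ T))) := by
    have e0 : ∑ T : Finset V, (if i ∈ T then 0 else
        (if T = ∅ then 0 else |hat f (insert i T)| * N ({j} ∆ T))) =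
        ∑ T ∈ univ.erase (∅ : Finset V), (if i ∈ T then 0 else
        (if T = ∅ then 0 else |hat f (insert i T)| * N ({j} ∆ T))) := by
      rw [← Finset.add_sum_erase _ _ (Finset.mem_univ (∅ : Finset V)),
        if_neg (Finset.notMem_empty i), if_pos rfl, zero_add]
    rw [e0]
    refine Finset.sum_congr rfl fun S hS => ?_
    rw [Finset.mem_erase] at hS
    rw [hat_D, if_neg hS.1]
    by_cases hi : i ∈ S
    · rw [if_pos hi, if_pos hi, abs_zero, zero_mul]
    · rw [if_neg hi, if_neg hi]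
  rw [h2, h1]
  unfold FC
  rw [Finset.sum_filter, Finset.sum_filter]
  refine Finset.sum_congr rfl fun B _ => ?_
  by_cases hi : i ∈ B
  · have hc0 : 0 < B.card := Finset.card_pos.2 ⟨i, hi⟩
    have h4 := Finset.card_erase_of_mem hi
    rw [if_pos hi]
    by_cases hc : 3 ≤ B.card
    · have he : B.erase i ≠ ∅ := by
        intro he
        rw [he, Finset.card_empty] at h4
        omega
      rw [if_neg he, if_pos ⟨hi, hc⟩]
    · rw [if_neg (fun h : i ∈ B ∧ 3 ≤ B.card => hc h.2)]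
      by_cases he : B.erase i = ∅
      · rw [if_pos he]
      · rw [if_neg he]
        have hc2 : B.card = 2 := by
          have h5 : 0 < (B.erase i).card := Finset.card_pos.2 (Finset.nonempty_iff_ne_empty.2 he)
          omega
        rw [hat_odd hodd (by rw [hc2]; exact even_two), abs_zero, zero_mul]
  · rw [if_neg hi, if_neg (fun h : i ∈ B ∧ 3 ≤ B.card => hi h.1)]

/-- One half of the pair: `N` bounds the moments, `act (tau ^ 2)` is bounded by `p` and the higher
coefficients of `D i f` by `M2 * a * N {j}`. -/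
theorem half_pos {A : V → V → ℝ} {f : (V → Bool) → ℝ} {a p z M M2 c K X : ℝ}
    {N : Finset V → ℝ} (hodd : ∀ σ, f (neg σ) = -f σ) {i j : V}
    (ha0 : 0 ≤ a) (ha : ∀ σ, a ≤ D i f σ) (hp : 0 ≤ p)
    (hact : ∀ C : Finset V, ∑ S, |hat (fun σ => tau A i σ ^ 2) S| * N (S ∆ C) ≤ p * N C)
    (hz : 0 ≤ z) (hM : 0 ≤ M) (hmom : ∀ C, |mom A f C| ≤ M * z * N C)
    (hX : 0 ≤ X) (hlow : c * z * X ≤ mom A f {j}) (hK : 0 ≤ K)
    (hNj : N {j} ≤ K * X)
    (hM2 : 0 ≤ M2) (hFC : FC N f j i ≤ M2 * a * N {j})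
    (hfin : M * (p + (1 + p) * M2) * K ≤ c) :
    0 ≤ ∑ σ, W A σ * (f σ * (sp j σ * ((1 - tau A i σ ^ 2) * D i f σ))) := by
  have hMz : 0 ≤ M * z := mul_nonneg hM hz
  -- the expansion
  have hG : ∀ S : Finset V, ∑ σ, W A σ * ((1 - tau A i σ ^ 2) * chi ({j} ∆ S) σ * f σ) =
      mom A f ({j} ∆ S) - ∑ σ, W A σ * (tau A i σ ^ 2 * chi ({j} ∆ S) σ * f σ) := by
    intro S
    unfold mom
    rw [← Finset.sum_sub_distrib]
    exact Finset.sum_congr rfl fun σ _ => by ring
  have hexp : ∑ σ, W A σ * (f σ * (sp j σ * ((1 - tau A i σ ^ 2) * D i f σ))) =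
      ∑ S, hat (D i f) S * ∑ σ, W A σ * ((1 - tau A i σ ^ 2) * chi ({j} ∆ S) σ * f σ) := by
    have e1 : ∀ σ, W A σ * (f σ * (sp j σ * ((1 - tau A i σ ^ 2) * D i f σ))) =
        ∑ S, hat (D i f) S * (W A σ * ((1 - tau A i σ ^ 2) * chi ({j} ∆ S) σ * f σ)) := by
      intro σ
      conv_lhs => rw [inversion (D i f) σ]
      rw [Finset.mul_sum, Finset.mul_sum, Finset.mul_sum, Finset.mul_sum]
      refine Finset.sum_congr rfl fun S _ => ?_
      rw [chi_symmDiff, chi_single]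
      ring
    rw [Finset.sum_congr rfl fun σ _ => e1 σ, Finset.sum_comm]
    refine Finset.sum_congr rfl fun S _ => ?_
    rw [Finset.mul_sum]
  have hQ : ∀ S : Finset V,
      |∑ σ, W A σ * (tau A i σ ^ 2 * chi ({j} ∆ S) σ * f σ)| ≤
        p * (M * z * N ({j} ∆ S)) := by
    intro S
    rw [mom_mul A f (fun σ => tau A i σ ^ 2) ({j} ∆ S)]
    refine (Finset.abs_sum_le_sum_abs _ _).trans ?_
    calc ∑ T : Finset V, |hat (fun σ => tau A i σ ^ 2) T * mom A f (T ∆ ({j} ∆ S))| ≤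
          ∑ T : Finset V, M * z * (|hat (fun σ => tau A i σ ^ 2) T| * N (T ∆ ({j} ∆ S))) := by
          refine Finset.sum_le_sum fun T _ => ?_
          rw [abs_mul]
          have := mul_le_mul_of_nonneg_left (hmom (T ∆ ({j} ∆ S)))
            (abs_nonneg (hat (fun σ => tau A i σ ^ 2) T))
          linarith
      _ = M * z * ∑ T : Finset V, |hat (fun σ => tau A i σ ^ 2) T| * N (T ∆ ({j} ∆ S)) := by
          rw [Finset.mul_sum]
      _ ≤ M * z * (p * N ({j} ∆ S)) := mul_le_mul_of_nonneg_left (hact _) hMz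
      _ = _ := by ring
  have hGabs : ∀ S : Finset V,
      |∑ σ, W A σ * ((1 - tau A i σ ^ 2) * chi ({j} ∆ S) σ * f σ)| ≤
        (1 + p) * (M * z * N ({j} ∆ S)) := by
    intro S
    rw [hG]
    have e1 := abs_sub (mom A f ({j} ∆ S))
      (∑ σ, W A σ * (tau A i σ ^ 2 * chi ({j} ∆ S) σ * f σ))
    have e2 := hmom ({j} ∆ S)
    have e3 := hQ S
    linarith
  rw [hexp, ← Finset.add_sum_erase _ _ (Finset.mem_univ (∅ : Finset V))]
  -- the main term
  have hj0 : ({j} : Finset V) ∆ ∅ = {j} := symmDiff_bot _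
  have hzX : 0 ≤ z * X := mul_nonneg hz hX
  have hmain : (c - p * M * K) * (z * X) ≤
      ∑ σ, W A σ * ((1 - tau A i σ ^ 2) * chi ({j} ∆ ∅) σ * f σ) := by
    rw [hG, hj0]
    have e1 := (abs_le.1 (hQ ∅)).2
    rw [hj0] at e1
    have e2 := mul_le_mul_of_nonneg_left hNj (mul_nonneg hp hMz)
    nlinarith
  have hhat : a ≤ hat (D i f) ∅ := by
    have e1 := hat_D i f ∅
    rw [if_neg (Finset.notMem_empty i), insert_empty_eq] at e1
    rw [e1]
    exact (hat_single_bounds ha (fun σ => le_XX f i σ)).1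
  -- the higher terms
  have h2 : |∑ S ∈ univ.erase (∅ : Finset V), hat (D i f) S *
      ∑ σ, W A σ * ((1 - tau A i σ ^ 2) * chi ({j} ∆ S) σ * f σ)| ≤
      (1 + p) * (M * z) * FC N f j i := by
    rw [← sum_high_eq hodd N i j, Finset.mul_sum]
    refine (Finset.abs_sum_le_sum_abs _ _).trans (Finset.sum_le_sum fun S _ => ?_)
    rw [abs_mul]
    calc |hat (D i f) S| * |∑ σ, W A σ * ((1 - tau A i σ ^ 2) * chi ({j} ∆ S) σ * f σ)| ≤
          |hat (D i f) S| * ((1 + p) * (M * z * N ({j} ∆ S))) :=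
          mul_le_mul_of_nonneg_left (hGabs S) (abs_nonneg _)
      _ = _ := by ring
  have h3 : (1 + p) * (M * z) * FC N f j i ≤ (1 + p) * (M * z) * (M2 * a * (K * X)) := by
    refine mul_le_mul_of_nonneg_left (hFC.trans ?_) (by positivity)
    exact mul_le_mul_of_nonneg_left hNj (mul_nonneg hM2 ha0)
  have h4 := (abs_le.1 (h2.trans h3)).1
  have h5 : 0 ≤ a * (z * X) := mul_nonneg ha0 hzX
  have hpos : 0 ≤ c - p * M * K := by
    have : 0 ≤ M * ((1 + p) * M2) * K := by positivity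
    nlinarith
  have h1 : a * ((c - p * M * K) * (z * X)) ≤
      hat (D i f) ∅ * ∑ σ, W A σ * ((1 - tau A i σ ^ 2) * chi ({j} ∆ ∅) σ * f σ) :=
    mul_le_mul hhat hmain (mul_nonneg hpos hzX) (ha0.trans hhat)
  have h6 := mul_le_mul_of_nonneg_right hfin h5
  nlinarith [h1, h4, h6]

end Pool.Agent.Lib.MP_f82811_pr.HF
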