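import Pool.Agent.Lib.MP_f82811_pr.HF.Act
import Pool.Agent.Lib.MP_f82811_pr.WC.Moments

/-!
# High temperature without degrees: the moments of the eigenfunction
-/

set_option autoImplicit false

namespace Pool.Agent.Lib.MP_f82811_pr.HF

open Finset HT WC symmDiff

variable {V : Type*} [Fintype V] [DecidableEq V]

theorem mom_bound_pos {A : V → V → ℝ} {f : (V → Bool) → ℝ} {lam M1 : ℝ} {N : Finset V → ℝ}
    (hA : Coup A) (hrow : ∀ v, ∑ u, A v u ≤ 1 / 10) (h : Eig A f lam)
    (hodd : ∀ σ, f (neg σ) = -f σ) (hlam : lam ≤ 1) (hpos : ∀ B, 0 < N B)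
    (hN : Avg A N (2 / 5)) (hM1 : 0 ≤ M1) (h1 : ∀ k, |mom A f {k}| ≤ M1 * N {k})
    (C : Finset V) : |mom A f C| ≤ M1 * N C := by
  obtain ⟨B, -, hB⟩ := Finset.exists_max_image (Finset.univ : Finset (Finset V))
    (fun C => |mom A f C| / N C) ⟨∅, Finset.mem_univ _⟩
  set Q := |mom A f B| / N B with hQ
  have hle : ∀ C, |mom A f C| ≤ Q * N C := fun C => by
    have := hB C (Finset.mem_univ C)
    rwa [div_le_iff₀ (hpos C)] at this
  suffices hQ1 : Q ≤ M1 from
    (hle C).trans (mul_le_mul_of_nonneg_right hQ1 (hpos C).le)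
  by_contra hcon
  push Not at hcon
  have hQ0 : 0 < Q := lt_of_le_of_lt hM1 hcon
  have hBN : |mom A f B| = Q * N B := by rw [hQ, div_mul_cancel₀ _ (hpos B).ne']
  have hBodd : Odd B.card := by
    by_contra hev
    rw [Nat.not_odd_iff_even] at hev
    rw [mom_even hodd hev, abs_zero] at hBN
    have := mul_pos hQ0 (hpos B)
    linarith
  have hB3 : 3 ≤ B.card := by
    obtain ⟨n, hn⟩ := hBodd
    rcases Nat.eq_zero_or_pos n with h0 | h0
    · have hc : B.card = 1 := by omega
      obtain ⟨k, hk⟩ := Finset.card_eq_one.1 hc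
      have h2 := h1 k
      rw [hk] at hBN
      rw [hBN] at h2
      have := le_of_mul_le_mul_right h2 (hpos _)
      linarith
    · omega
  -- the equation
  have heq := mom_eq hA h B
  have hcard : (3 : ℝ) ≤ B.card := by exact_mod_cast hB3
  have hterm : ∀ v ∈ B, |∑ S, hat (tau A v) S * mom A f (S ∆ (B.erase v))| ≤
      9 / 20 * (Q * N B) := by
    intro v hv
    refine (Finset.abs_sum_le_sum_abs _ _).trans ?_
    have h2 : ∑ S, |hat (tau A v) S * mom A f (S ∆ (B.erase v))| ≤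
        Q * act (tau A v) N (B.erase v) := by
      unfold act
      rw [Finset.mul_sum]
      refine Finset.sum_le_sum fun S _ => ?_
      rw [abs_mul]
      have h3 := mul_le_mul_of_nonneg_left (hle (S ∆ (B.erase v))) (abs_nonneg (hat (tau A v) S))
      linarith
    have h3 := mul_le_mul_of_nonneg_left (act_tau hA hrow hN v (B.erase v)) hQ0.le
    have h4 : {v} ∆ (B.erase v) = B := by
      ext u
      by_cases hu : u = v
      · subst hu; simp [Finset.mem_symmDiff, hv]
      · simp [Finset.mem_symmDiff, hu]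
    rw [h4] at h3
    linarith
  have h5 : ((B.card : ℝ) - lam) * (Q * N B) ≤ (B.card : ℝ) * (9 / 20 * (Q * N B)) := by
    have h6 : ((B.card : ℝ) - lam) * |mom A f B| =
        |∑ v ∈ B, ∑ S, hat (tau A v) S * mom A f (S ∆ (B.erase v))| := by
      rw [← heq, abs_mul, abs_of_nonneg (show (0 : ℝ) ≤ (B.card : ℝ) - lam by linarith)]
    rw [← hBN, h6]
    refine (Finset.abs_sum_le_sum_abs _ _).trans ?_
    refine (Finset.sum_le_sum hterm).trans ?_
    rw [Finset.sum_const, nsmul_eq_mul, hBN]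
  have h7 : 0 < Q * N B := mul_pos hQ0 (hpos B)
  have h8 : (B.card : ℝ) - lam ≤ (B.card : ℝ) * (9 / 20) := by
    refine le_of_mul_le_mul_right ?_ h7
    calc _ ≤ _ := h5
      _ = _ := by ring
  nlinarith

theorem mom_bound {A : V → V → ℝ} {f : (V → Bool) → ℝ} {lam M1 : ℝ} {N : Finset V → ℝ}
    (hA : Coup A) (hrow : ∀ v, ∑ u, A v u ≤ 1 / 10) (h : Eig A f lam)
    (hodd : ∀ σ, f (neg σ) = -f σ) (hlam : lam ≤ 1) (hN : Avg A N (2 / 5))
    (hM1 : 0 ≤ M1) (h1 : ∀ k, |mom A f {k}| ≤ M1 * N {k}) (C : Finset V) :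
    |mom A f C| ≤ M1 * N C := by
  refine le_of_forall_pos_le_add fun ε hε => ?_
  have hc0 : 0 < M1 + 1 := by linarith
  have hη0 : 0 < ε / (M1 + 1) := div_pos hε hc0
  have h2 := mom_bound_pos hA hrow h hodd hlam
    (N := fun B => N B + ε / (M1 + 1)) (fun B => add_pos_of_nonneg_of_pos (hN.nonneg B) hη0)
    (hN.add_const hrow hη0.le) hM1 (fun k => ?_) C
  · refine h2.trans ?_
    have h4 : M1 * (ε / (M1 + 1)) ≤ ε := by
      rw [mul_div_assoc', div_le_iff₀ hc0]
      nlinarith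
    linarith
  · have h3 := mul_nonneg hM1 hη0.le
    have h4 := h1 k
    linarith

end Pool.Agent.Lib.MP_f82811_pr.HF
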