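import Pool.Agent.Lib.MP_f82811_pr.HF.TwoPoint
import Pool.Agent.Lib.MP_f82811_pr.HF.Act
import Pool.Agent.Lib.MP_f82811_pr.HF.Moments
import Pool.Agent.Lib.MP_f82811_pr.HF.Coef
import Pool.Agent.Lib.MP_f82811_pr.HF.Half

/-!
# High temperature: positivity for all pairs
-/

set_option autoImplicit false

namespace Pool.Agent.Lib.MP_f82811_pr.HF

open Finset HT WC symmDiff

variable {V : Type*} [Fintype V] [DecidableEq V]

theorem pair_nonneg {A : V → V → ℝ} {f : (V → Bool) → ℝ} {lam : ℝ} (hA : Coup A)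
    (hrow : ∀ v, ∑ u, A v u ≤ 1 / 10) (hf : Monotone f) (hodd : ∀ σ, f (neg σ) = -f σ)
    (h : Eig A f lam) (hne : ∃ i, XX f i ≠ 0) {i j : V} (hij : i ≠ j) :
    0 ≤ ∑ σ, W A σ * (sp i σ * sp j σ * defect (W A) f σ) := by
  obtain ⟨hl1, hl2, _, hXx, _⟩ := bounds (δ := 1 / 10) (m := 1 / 400) hA (by norm_num)
    (by norm_num) hrow hf h hne (by norm_num) (by norm_num) (by norm_num)
  have hlam : 0 < lam := by linarith
  have hx0 : ∀ k, 0 ≤ xx f k := xx_nonneg hf
  have hX : ∀ k, XX f k ≤ 201 / 200 * xx f k := fun k => by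
    have := hXx k
    linarith
  have hAx : ∀ k, ∑ v, A v k * xx f v ≤ 10 / 99 * xx f k := by
    intro k
    have e1 := harnack hA hrow hf h k
    have e2 := mul_le_mul_of_nonneg_right hl2 (hx0 k)
    linarith
  obtain ⟨N, hN, hN1, hN2⟩ := exists_N hA hrow hx0 hAx
  have hZ : 0 ≤ ∑ σ, W A σ := Finset.sum_nonneg fun σ _ => (W_pos A σ).le
  obtain ⟨z, hz⟩ : ∃ z, z = (∑ σ, W A σ) / lam := ⟨_, rfl⟩
  have hz0 : 0 ≤ z := by rw [hz]; exact div_nonneg hZ hlam.le
  have hlz : lam * z = ∑ σ, W A σ := by rw [hz]; field_simp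
  -- the first moments
  have hup : ∀ k, mom A f {k} ≤ 201 / 200 * z * xx f k := by
    intro k
    have e1 := mom_single hA h k
    have e2 : ∑ σ, W A σ * ((1 - tau A k σ ^ 2) * D k f σ) ≤ ∑ σ, W A σ * (201 / 200 * xx f k) := by
      refine Finset.sum_le_sum fun σ _ => mul_le_mul_of_nonneg_left ?_ (W_pos A σ).le
      have g1 := le_XX f k σ
      have g2 := hX k
      have g3 := D_nonneg hf k σ
      have g4 := HT.tau_sq_le hA hrow k σ
      nlinarith [sq_nonneg (tau A k σ), mul_nonneg (sq_nonneg (tau A k σ)) g3]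
    rw [← Finset.sum_mul] at e2
    have e3 : lam * mom A f {k} ≤ lam * (201 / 200 * z * xx f k) := by
      rw [e1]
      refine e2.trans (le_of_eq ?_)
      rw [← hlz]
      ring
    exact le_of_mul_le_mul_left e3 hlam
  have hlow : ∀ k, 99 / 100 * z * xx f k ≤ mom A f {k} := by
    intro k
    have e1 := mom_single hA h k
    have e2 : ∑ σ, W A σ * (99 / 100 * xx f k) ≤
        ∑ σ, W A σ * ((1 - tau A k σ ^ 2) * D k f σ) := by
      refine Finset.sum_le_sum fun σ _ => mul_le_mul_of_nonneg_left ?_ (W_pos A σ).le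
      have g1 := xx_le f k σ
      have g2 := hx0 k
      have g4 := HT.tau_sq_le hA hrow k σ
      exact mul_le_mul (by linarith) g1 g2 (by linarith)
    rw [← Finset.sum_mul] at e2
    have e3 : lam * (99 / 100 * z * xx f k) ≤ lam * mom A f {k} := by
      rw [e1]
      refine le_trans (le_of_eq ?_) e2
      rw [← hlz]
      ring
    exact le_of_mul_le_mul_left e3 hlam
  have h1 : ∀ k, |mom A f {k}| ≤ 201 / 200 * z * N {k} := by
    intro k
    have e1 := hlow k
    have e0 : 0 ≤ 99 / 100 * z * xx f k :=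
      mul_nonneg (mul_nonneg (by norm_num) hz0) (hx0 k)
    rw [abs_of_nonneg (e0.trans e1)]
    exact (hup k).trans (mul_le_mul_of_nonneg_left (hN1 k) (mul_nonneg (by norm_num) hz0))
  have hmom := mom_bound hA hrow h hodd hl1 hN (mul_nonneg (by norm_num) hz0) h1
  have hhat : ∀ k, |hat f {k}| ≤ 201 / 200 * xx f k := by
    intro k
    have e1 := hat_single_bounds (fun σ => xx_le f k σ) (fun σ => le_XX f k σ)
    rw [abs_of_nonneg ((hx0 k).trans e1.1)]
    exact e1.2.trans (hX k)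
  have hhalf : ∀ a b : V,
      0 ≤ ∑ σ, W A σ * (f σ * (sp b σ * ((1 - tau A a σ ^ 2) * D a f σ))) := by
    intro a b
    refine half_pos (p := 81 / 400) (z := z) (M := 201 / 200) (M2 := 1 / 46) (c := 99 / 100)
      (K := 18 / 5) (X := xx f b) (N := N) hodd (hx0 a) (fun σ => xx_le f a σ) (by norm_num)
      (act_sq_tau hA hrow hN a) hz0 (by norm_num) hmom (hx0 b) (hlow b) (by norm_num) (hN2 b)
      (by norm_num) (coef_bound hA hrow h hodd hl1 hN hx0 hAx hhat b a) (by norm_num)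
  rw [pair_defect_eq hA f hij]
  exact add_nonneg (hhalf i j) (hhalf j i)

end Pool.Agent.Lib.MP_f82811_pr.HF
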