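import Pool.Agent.Lib.MP_f82811_pr.HF.EdgeOf
import Pool.Agent.Lib.MP_f82811_pr.HF.PairPos

/-!
# High temperature: the gap is decreasing in all couplings
-/

set_option autoImplicit false

namespace Pool.Agent.Lib.MP_f82811_pr.HF

open Finset HT WC

variable {V : Type*} [Fintype V] [DecidableEq V]

/-- One coupling, the last step may be as large as we please. -/
theorem edge_mono [Nonempty V] (G : SimpleGraph V) [DecidableRel G.Adj] {J : Sym2 V → ℝ}
    (hJ : ∀ e ∈ G.edgeSet, 0 ≤ J e)
    (hrow : ∀ v, ∑ u ∈ G.neighborFinset v, J s(v, u) ≤ 1 / 10)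
    {e : Sym2 V} (he : e ∈ G.edgeSet) {y : ℝ} (hy : J e ≤ y) :
    gap (gibbs G (Function.update J e y)) ≤ gap (gibbs G J) := by
  induction e with
  | h i j =>
    have hadj : G.Adj i j := he
    have hA := coup_mat G (J := J) hJ
    have hrow' : ∀ v, ∑ u, mat G J v u ≤ 1 / 10 := fun v => by rw [sum_mat]; exact hrow v
    exact edge_mono_of G hJ hadj (fun f lam hf hodd hE hne =>
      pair_nonneg hA hrow' hf hodd hE hne hadj.ne) hy

/-- **The gap is decreasing in all couplings at high temperature.** -/
theorem box_mono [Nonempty V] (G : SimpleGraph V) [DecidableRel G.Adj] {J J' : Sym2 V → ℝ}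
    (hJ : ∀ e ∈ G.edgeSet, 0 ≤ J e) (hJJ' : ∀ e ∈ G.edgeSet, J e ≤ J' e)
    (hrow : ∀ v, ∑ u ∈ G.neighborFinset v, J' s(v, u) ≤ 1 / 10) :
    gap (gibbs G J') ≤ gap (gibbs G J) := by
  have main : ∀ s : Finset (Sym2 V), s ⊆ G.edgeFinset →
      gap (gibbs G (fun e => if e ∈ s then J' e else J e)) ≤ gap (gibbs G J) := by
    intro s
    induction s using Finset.induction with
    | empty =>
      intro _
      simp
    | insert e s hes ih =>
      intro hsub
      have he : e ∈ G.edgeSet := SimpleGraph.mem_edgeFinset.1 (hsub (Finset.mem_insert_self _ _))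
      have hs : s ⊆ G.edgeFinset := fun x hx => hsub (Finset.mem_insert_of_mem hx)
      refine le_trans ?_ (ih hs)
      have e1 : (fun e' => if e' ∈ insert e s then J' e' else J e') =
          Function.update (fun e' => if e' ∈ s then J' e' else J e') e (J' e) := by
        funext e'
        by_cases h : e' = e
        · subst h
          simp
        · rw [Function.update_of_ne h]
          simp [Finset.mem_insert, h]
      rw [e1]
      have hle : ∀ e ∈ G.edgeSet, (if e ∈ s then J' e else J e) ≤ J' e := by
        intro e he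
        split_ifs
        · exact le_rfl
        · exact hJJ' e he
      have hrow' : ∀ v, ∑ u ∈ G.neighborFinset v,
          (if s(v, u) ∈ s then J' s(v, u) else J s(v, u)) ≤ 1 / 10 := by
        intro v
        refine le_trans (Finset.sum_le_sum fun u hu => ?_) (hrow v)
        exact hle _ ((SimpleGraph.mem_neighborFinset G v u).1 hu)
      have hge : ∀ e ∈ G.edgeSet, 0 ≤ (if e ∈ s then J' e else J e) := by
        intro e he
        split_ifs
        · exact (hJ e he).trans (hJJ' e he)
        · exact hJ e he
      refine edge_mono G hge hrow' he ?_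
      rw [if_neg hes]
      exact hJJ' e he
  have h1 := main G.edgeFinset (Finset.Subset.refl _)
  have h2 : weight G (fun e => if e ∈ G.edgeFinset then J' e else J e) = weight G J' := by
    apply weight_congr
    intro e he
    simp only [SimpleGraph.mem_edgeFinset, he, if_true]
  have h3 : gibbs G (fun e => if e ∈ G.edgeFinset then J' e else J e) = gibbs G J' := by
    rw [gibbs_eq, gibbs_eq, h2]
  rw [h3] at h1
  exact h1

/-- All couplings but one at high temperature; the coupling of `e0` may be raised to any value. -/
theorem main [Nonempty V] (G : SimpleGraph V) [DecidableRel G.Adj] {J J' : Sym2 V → ℝ}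
    (hJ : ∀ e ∈ G.edgeSet, 0 ≤ J e) (hJJ' : ∀ e ∈ G.edgeSet, J e ≤ J' e) (e0 : Sym2 V)
    (hrow : ∀ v, ∑ u ∈ G.neighborFinset v, Function.update J' e0 (J e0) s(v, u) ≤ 1 / 10) :
    gap (gibbs G J') ≤ gap (gibbs G J) := by
  have h1 : ∀ e ∈ G.edgeSet, J e ≤ Function.update J' e0 (J e0) e := by
    intro e he
    by_cases h : e = e0
    · subst h
      rw [Function.update_self]
    · rw [Function.update_of_ne h]
      exact hJJ' e he
  refine le_trans ?_ (box_mono G hJ h1 hrow)
  by_cases he0 : e0 ∈ G.edgeSet
  · have h2 := edge_mono G (J := Function.update J' e0 (J e0))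
      (fun e he => (hJ e he).trans (h1 e he)) hrow he0 (y := J' e0)
      (by rw [Function.update_self]; exact hJJ' e0 he0)
    rwa [Function.update_idem, Function.update_eq_self] at h2
  · have h2 : weight G (Function.update J' e0 (J e0)) = weight G J' := by
      apply weight_congr
      intro e he
      rw [Function.update_of_ne]
      intro hc
      rw [hc] at he
      exact he0 he
    rw [gibbs_eq, gibbs_eq, h2]

end Pool.Agent.Lib.MP_f82811_pr.HF
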