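import Pool.Agent.Lib.MP_f82811_pr.HF.Xi

/-!
# The second differences of `log Ξ`
-/

set_option autoImplicit false

namespace Pool.Agent.Lib.MP_f82811_pr.HF

open Finset HT WC symmDiff

/-! ### Two real inequalities -/

theorem log_le_half_sub_inv {z : ℝ} (hz : 1 ≤ z) : Real.log z ≤ (z - z⁻¹) / 2 := by
  have h1 : 0 < z := lt_of_lt_of_le one_pos hz
  rw [← Real.sinh_log h1]
  exact Real.self_le_sinh_iff.2 (Real.log_nonneg hz)

theorem log_ratio_le {c b : ℝ} (hb : 0 ≤ b) (hc : b < c) :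
    Real.log (c + b) - Real.log (c - b) ≤ b * (1 / (c - b) + 1 / (c + b)) := by
  have h1 : 0 < c - b := by linarith
  have h2 : 0 < c + b := by linarith
  rw [← Real.log_div h2.ne' h1.ne']
  refine (log_le_half_sub_inv ?_).trans (le_of_eq ?_)
  · rw [le_div_iff₀ h1]
    linarith
  · field_simp
    ring

/-- The factor at one of the two vertices. -/
theorem log_two {θ b : ℝ} (hb : 0 ≤ b) (h : |θ| + b ≤ 1 / 4) :
    Real.log (1 + θ + b) + Real.log (1 - θ + b) - Real.log (1 - θ - b) - Real.log (1 + θ - b) ≤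
      64 / 15 * b := by
  have h0 := abs_nonneg θ
  have h1 : -(1 / 4 - b) ≤ θ := by have := neg_abs_le θ; linarith
  have h2 : θ ≤ 1 / 4 - b := by have := le_abs_self θ; linarith
  have e1 := log_ratio_le (c := 1 + θ) hb (by linarith)
  have e2 := log_ratio_le (c := 1 - θ) hb (by linarith)
  have e3 : 1 / (1 + θ - b) + 1 / (1 - θ + b) ≤ 32 / 15 := by
    have g1 : 0 < 1 + θ - b := by linarith
    have g2 : 0 < 1 - θ + b := by linarith
    rw [div_add_div _ _ g1.ne' g2.ne', div_le_div_iff₀ (mul_pos g1 g2) (by norm_num)]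
    have : 0 ≤ (1 / 4 - (θ - b)) * (1 / 4 + (θ - b)) := mul_nonneg (by linarith) (by linarith)
    nlinarith
  have e4 : 1 / (1 + θ + b) + 1 / (1 - θ - b) ≤ 32 / 15 := by
    have g1 : 0 < 1 + θ + b := by linarith
    have g2 : 0 < 1 - θ - b := by linarith
    rw [div_add_div _ _ g1.ne' g2.ne', div_le_div_iff₀ (mul_pos g1 g2) (by norm_num)]
    have : 0 ≤ (1 / 4 - (θ + b)) * (1 / 4 + (θ + b)) := mul_nonneg (by linarith) (by linarith)
    nlinarith
  have e5 := mul_le_mul_of_nonneg_left (add_le_add e3 e4) hb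
  linarith

/-- The factor at any other vertex. -/
theorem log_four {r a b : ℝ} (ha : 0 ≤ a) (hb : 0 ≤ b) (h : |r| + a + b ≤ 1 / 4) :
    Real.log (1 - (r - a + b)) + Real.log (1 - (r + a - b)) - Real.log (1 - (r + a + b)) -
      Real.log (1 - (r - a - b)) ≤ 64 / 9 * (a * b) := by
  have h1 : -(1 / 4 - a - b) ≤ r := by have := neg_abs_le r; linarith
  have h2 : r ≤ 1 / 4 - a - b := by have := le_abs_self r; linarith
  have p1 : 0 < 1 - (r - a + b) := by linarith
  have p2 : 0 < 1 - (r + a - b) := by linarith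
  have p3 : 3 / 4 ≤ 1 - (r + a + b) := by linarith
  have p4 : 3 / 4 ≤ 1 - (r - a - b) := by linarith
  have p3' : 0 < 1 - (r + a + b) := by linarith
  have p4' : 0 < 1 - (r - a - b) := by linarith
  have e1 : Real.log (1 - (r - a + b)) + Real.log (1 - (r + a - b)) - Real.log (1 - (r + a + b)) -
      Real.log (1 - (r - a - b)) = Real.log ((1 - (r - a + b)) * (1 - (r + a - b)) /
        ((1 - (r + a + b)) * (1 - (r - a - b)))) := by
    rw [Real.log_div (mul_pos p1 p2).ne' (mul_pos p3' p4').ne', Real.log_mul p1.ne' p2.ne',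
      Real.log_mul p3'.ne' p4'.ne']
    ring
  rw [e1]
  refine (Real.log_le_sub_one_of_pos (div_pos (mul_pos p1 p2) (mul_pos p3' p4'))).trans ?_
  have e2 : (1 - (r - a + b)) * (1 - (r + a - b)) / ((1 - (r + a + b)) * (1 - (r - a - b))) - 1 =
      4 * (a * b) / ((1 - (r + a + b)) * (1 - (r - a - b))) := by
    field_simp
    ring
  rw [e2, div_le_iff₀ (mul_pos p3' p4')]
  have e3 : 9 / 16 ≤ (1 - (r + a + b)) * (1 - (r - a - b)) := by
    have := mul_le_mul p3 p4 (by norm_num) p3'.le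
    linarith
  have e4 := mul_le_mul_of_nonneg_left e3 (mul_nonneg ha hb)
  linarith

variable {V : Type*} [Fintype V] [DecidableEq V]

/-! ### The logarithm of one factor -/

/-- The logarithm of one factor of `Ξ`. -/
noncomputable def lx (A : V → V → ℝ) (v : V) (σ : V → Bool) : ℝ := -Real.log (1 - yy A v σ)

/-- `log Ξ`. -/
noncomputable def lXi (A : V → V → ℝ) (σ : V → Bool) : ℝ := ∑ v, lx A v σ

omit [DecidableEq V] in
theorem Xi_eq_exp {A : V → V → ℝ} (hA : Coup A) (hrow : ∀ v, ∑ u, A v u ≤ 1 / 10)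
    (σ : V → Bool) : Xi A σ = Real.exp (lXi A σ) := by
  unfold Xi lXi
  rw [Real.exp_sum]
  refine Finset.prod_congr rfl fun v _ => ?_
  unfold lx
  rw [Real.exp_neg, Real.exp_log (one_sub_yy_pos hA hrow v σ), one_div]

/-- The scaled field at the four configurations. -/
theorem fld_four (A : V → V → ℝ) (v k w : V) (hkw : w ≠ k) (σ : V → Bool) (s t : Bool) :
    fld A v (Function.update (Function.update σ w s) k t) =
      M w (M k (fld A v)) σ + A v k * spin t + A v w * spin s := by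
  have h1 : ∀ (s t : Bool), fld A v (Function.update (Function.update σ w s) k t) =
      fld A v σ + A v k * (spin t - sp k σ) + A v w * (spin s - sp w σ) := by
    intro s t
    rw [fld_update, fld_update, sp_update_ne hkw.symm]
    unfold sp
    ring
  rw [h1]
  unfold M
  rw [h1, h1, h1, h1, spin_true, spin_false]
  ring

omit [Fintype V] in
theorem D_D_eq (g : (V → Bool) → ℝ) (k w : V) (σ : V → Bool) :
    D w (D k g) σ = (g (Function.update (Function.update σ w true) k true) -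
      g (Function.update (Function.update σ w true) k false) -
      g (Function.update (Function.update σ w false) k true) +
      g (Function.update (Function.update σ w false) k false)) / 4 := by
  unfold D
  ring

/-- The bound for the field of the other spins. -/
theorem abs_MM_fld_le {A : V → V → ℝ} (hA : Coup A) (hrow : ∀ v, ∑ u, A v u ≤ 1 / 10)
    (v k w : V) (hkw : w ≠ k) (σ : V → Bool) :
    |M w (M k (fld A v)) σ| + A v k + A v w ≤ 1 / 10 := by
  have h1 := abs_fld_le hA hrow v (Function.update (Function.update σ w true) k true)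
  have h2 := abs_fld_le hA hrow v (Function.update (Function.update σ w false) k false)
  rw [fld_four A v k w hkw] at h1 h2
  rw [spin_true] at h1
  rw [spin_false] at h2
  have h3 := abs_le.1 h1
  have h4 := abs_le.1 h2
  have h5 : |M w (M k (fld A v)) σ| ≤ 1 / 10 - A v k - A v w := by
    rw [abs_le]
    constructor <;> linarith [h3.1, h3.2, h4.1, h4.2]
  linarith

/-- The factor at `k`. -/
theorem DD_lx_self {A : V → V → ℝ} (hA : Coup A) (hrow : ∀ v, ∑ u, A v u ≤ 1 / 10)
    (k w : V) (hkw : w ≠ k) (σ : V → Bool) :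
    D w (D k (lx A k)) σ ≤ 8 / 3 * A k w := by
  have h0 := abs_MM_fld_le hA hrow k k w hkw σ
  rw [hA.diag k] at h0
  have hb : 0 ≤ 5 / 2 * A k w := mul_nonneg (by norm_num) (hA.nonneg k w)
  have h1 := log_two (θ := 5 / 2 * M w (M k (fld A k)) σ) (b := 5 / 2 * A k w) hb
    (by rw [abs_mul, abs_of_pos (by norm_num : (0 : ℝ) < 5 / 2)]; linarith)
  rw [D_D_eq]
  unfold lx yy
  rw [fld_four A k k w hkw, fld_four A k k w hkw, fld_four A k k w hkw, fld_four A k k w hkw,
    sp_update_self, sp_update_self, sp_update_self, sp_update_self, spin_true, spin_false,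
    hA.diag k]
  obtain ⟨θ, hθ⟩ : ∃ θ, θ = M w (M k (fld A k)) σ := ⟨_, rfl⟩
  rw [← hθ] at h1 ⊢
  have e1 : 1 - 1 * (5 / 2 * (θ + 0 * 1 + A k w * 1)) = 1 - 5 / 2 * θ - 5 / 2 * A k w := by ring
  have e2 : 1 - -1 * (5 / 2 * (θ + 0 * -1 + A k w * 1)) = 1 + 5 / 2 * θ + 5 / 2 * A k w := by ring
  have e3 : 1 - 1 * (5 / 2 * (θ + 0 * 1 + A k w * -1)) = 1 - 5 / 2 * θ + 5 / 2 * A k w := by ring
  have e4 : 1 - -1 * (5 / 2 * (θ + 0 * -1 + A k w * -1)) = 1 + 5 / 2 * θ - 5 / 2 * A k w := by ring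
  rw [e1, e2, e3, e4]
  linarith

/-- The factor at another vertex. -/
theorem DD_lx_ne {A : V → V → ℝ} (hA : Coup A) (hrow : ∀ v, ∑ u, A v u ≤ 1 / 10)
    (v k w : V) (hkw : w ≠ k) (hvk : v ≠ k) (hvw : v ≠ w) (σ : V → Bool) :
    D w (D k (lx A v)) σ ≤ 100 / 9 * (A v k * A v w) := by
  have h0 := abs_MM_fld_le hA hrow v k w hkw σ
  have ha : 0 ≤ 5 / 2 * A v k := mul_nonneg (by norm_num) (hA.nonneg v k)
  have hb : 0 ≤ 5 / 2 * A v w := mul_nonneg (by norm_num) (hA.nonneg v w)
  rw [D_D_eq]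
  unfold lx yy
  rw [fld_four A v k w hkw, fld_four A v k w hkw, fld_four A v k w hkw, fld_four A v k w hkw,
    sp_update_ne hvk, sp_update_ne hvk, sp_update_ne hvk, sp_update_ne hvk, sp_update_ne hvw,
    sp_update_ne hvw, spin_true, spin_false]
  obtain ⟨θ, hθ⟩ : ∃ θ, θ = M w (M k (fld A v)) σ := ⟨_, rfl⟩
  rw [← hθ] at h0 ⊢
  rcases (by unfold sp spin; split_ifs <;> simp : sp v σ = 1 ∨ sp v σ = -1) with hs | hs
  · rw [hs]
    have h1 := log_four (r := 5 / 2 * θ) ha hb
      (by rw [abs_mul, abs_of_pos (by norm_num : (0 : ℝ) < 5 / 2)]; linarith)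
    have e1 : 1 - 1 * (5 / 2 * (θ + A v k * 1 + A v w * 1)) =
        1 - (5 / 2 * θ + 5 / 2 * A v k + 5 / 2 * A v w) := by ring
    have e2 : 1 - 1 * (5 / 2 * (θ + A v k * -1 + A v w * 1)) =
        1 - (5 / 2 * θ - 5 / 2 * A v k + 5 / 2 * A v w) := by ring
    have e3 : 1 - 1 * (5 / 2 * (θ + A v k * 1 + A v w * -1)) =
        1 - (5 / 2 * θ + 5 / 2 * A v k - 5 / 2 * A v w) := by ring
    have e4 : 1 - 1 * (5 / 2 * (θ + A v k * -1 + A v w * -1)) =
        1 - (5 / 2 * θ - 5 / 2 * A v k - 5 / 2 * A v w) := by ring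
    rw [e1, e2, e3, e4]
    linarith
  · rw [hs]
    have h1 := log_four (r := -(5 / 2 * θ)) ha hb
      (by rw [abs_neg, abs_mul, abs_of_pos (by norm_num : (0 : ℝ) < 5 / 2)]; linarith)
    have e1 : 1 - -1 * (5 / 2 * (θ + A v k * 1 + A v w * 1)) =
        1 - (-(5 / 2 * θ) - 5 / 2 * A v k - 5 / 2 * A v w) := by ring
    have e2 : 1 - -1 * (5 / 2 * (θ + A v k * -1 + A v w * 1)) =
        1 - (-(5 / 2 * θ) + 5 / 2 * A v k - 5 / 2 * A v w) := by ring
    have e3 : 1 - -1 * (5 / 2 * (θ + A v k * 1 + A v w * -1)) =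
        1 - (-(5 / 2 * θ) - 5 / 2 * A v k + 5 / 2 * A v w) := by ring
    have e4 : 1 - -1 * (5 / 2 * (θ + A v k * -1 + A v w * -1)) =
        1 - (-(5 / 2 * θ) + 5 / 2 * A v k + 5 / 2 * A v w) := by ring
    rw [e1, e2, e3, e4]
    linarith

/-- The interaction strengths of `Ξ`. -/
noncomputable def cc (A : V → V → ℝ) (k w : V) : ℝ :=
  16 / 3 * A k w + 100 / 9 * ∑ v, A v k * A v w

omit [DecidableEq V] in
theorem cc_nonneg {A : V → V → ℝ} (hA : Coup A) (k w : V) : 0 ≤ cc A k w := by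
  unfold cc
  have h1 := hA.nonneg k w
  have h2 : 0 ≤ ∑ v, A v k * A v w :=
    Finset.sum_nonneg fun v _ => mul_nonneg (hA.nonneg v k) (hA.nonneg v w)
  positivity

/-- The second differences of `log Ξ`. -/
theorem DD_lXi {A : V → V → ℝ} (hA : Coup A) (hrow : ∀ v, ∑ u, A v u ≤ 1 / 10)
    (k w : V) (hkw : w ≠ k) (σ : V → Bool) : D w (D k (lXi A)) σ ≤ cc A k w := by
  have h1 : D k (lXi A) = fun σ => ∑ v, D k (lx A v) σ := by
    funext σ
    exact D_sum k (fun v => lx A v) σ
  rw [h1, D_sum w (fun v => D k (lx A v)) σ]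
  have h2 : ∀ v, D w (D k (lx A v)) σ ≤
      (if v = k then 8 / 3 * A k w else 0) + (if v = w then 8 / 3 * A k w else 0) +
        100 / 9 * (A v k * A v w) := by
    intro v
    have h3 : 0 ≤ 100 / 9 * (A v k * A v w) :=
      mul_nonneg (by norm_num) (mul_nonneg (hA.nonneg v k) (hA.nonneg v w))
    by_cases hvk : v = k
    · subst hvk
      rw [if_pos rfl, if_neg hkw.symm]
      have := DD_lx_self hA hrow v w hkw σ
      linarith
    · by_cases hvw : v = w
      · subst hvw
        rw [if_neg hvk, if_pos rfl, D_comm]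
        have := DD_lx_self hA hrow v k hkw.symm σ
        rw [hA.symm v k] at this
        linarith
      · rw [if_neg hvk, if_neg hvw]
        have := DD_lx_ne hA hrow v k w hkw hvk hvw σ
        linarith
  refine (Finset.sum_le_sum fun v _ => h2 v).trans (le_of_eq ?_)
  rw [Finset.sum_add_distrib, Finset.sum_add_distrib, Finset.sum_ite_eq' , Finset.sum_ite_eq',
    if_pos (Finset.mem_univ k), if_pos (Finset.mem_univ w), ← Finset.mul_sum]
  unfold cc
  ring

end Pool.Agent.Lib.MP_f82811_pr.HF
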