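import Pool.Agent.Lib.MP_f82811_pr.HF.LogXi

/-!
# The two point bound for `Ξ` and the function `N`
-/

set_option autoImplicit false

namespace Pool.Agent.Lib.MP_f82811_pr.HF

open Finset HT WC symmDiff

variable {V : Type*} [Fintype V] [DecidableEq V]

/-- Nonnegative differences give a monotone function. -/
theorem monotone_of_D {g : (V → Bool) → ℝ} (h : ∀ v σ, 0 ≤ D v g σ) : Monotone g := by
  intro σ τ hστ
  have main : ∀ s : Finset V, g σ ≤ g (fun v => if v ∈ s then τ v else σ v) := by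
    intro s
    induction s using Finset.induction with
    | empty => simp
    | insert v s hv ih =>
      refine ih.trans ?_
      obtain ⟨ρ, hρ⟩ : ∃ ρ : V → Bool, ρ = fun u => if u ∈ s then τ u else σ u := ⟨_, rfl⟩
      have e1 : (fun u => if u ∈ insert v s then τ u else σ u) = Function.update ρ v (τ v) := by
        funext u
        by_cases hu : u = v
        · subst hu
          simp
        · rw [Function.update_of_ne hu, hρ]
          simp [Finset.mem_insert, hu]
      rw [e1, ← hρ]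
      have e2 : ρ v = σ v := by rw [hρ]; simp [hv]
      have e3 : σ v ≤ τ v := hστ v
      have e4 := h v ρ
      unfold D at e4
      cases hs : σ v
      · cases ht : τ v
        · have : Function.update ρ v false = ρ := by
            rw [← hs, ← e2, Function.update_eq_self]
          rw [this]
        · have : Function.update ρ v false = ρ := by
            rw [← hs, ← e2, Function.update_eq_self]
          rw [this] at e4
          linarith
      · have ht : τ v = true := by
          rw [hs] at e3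
          exact Bool.eq_true_of_true_le e3
        have : Function.update ρ v true = ρ := by
          rw [← hs, ← e2, Function.update_eq_self]
        rw [ht, this]
  have h1 := main univ
  simpa using h1

/-- The conditional mean of the spin at `k` under `Ξ`. -/
noncomputable def mk (A : V → V → ℝ) (k : V) (σ : V → Bool) : ℝ := Real.tanh (D k (lXi A) σ)

theorem mk_update (A : V → V → ℝ) (k : V) (σ : V → Bool) (b : Bool) :
    mk A k (Function.update σ k b) = mk A k σ := by
  unfold mk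
  rw [D_update]

theorem exp_sub_exp (a b : ℝ) :
    Real.exp a - Real.exp b = Real.tanh ((a - b) / 2) * (Real.exp a + Real.exp b) := by
  have h1 : Real.exp a = Real.exp ((a + b) / 2) * Real.exp ((a - b) / 2) := by
    rw [← Real.exp_add]; congr 1; ring
  have h2 : Real.exp b = Real.exp ((a + b) / 2) * Real.exp (-((a - b) / 2)) := by
    rw [← Real.exp_add]; congr 1; ring
  have h3 : Real.exp ((a - b) / 2) - Real.exp (-((a - b) / 2)) =
      Real.tanh ((a - b) / 2) * (Real.exp ((a - b) / 2) + Real.exp (-((a - b) / 2))) := by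
    rw [Real.tanh_eq_sinh_div_cosh, Real.sinh_eq, Real.cosh_eq]
    have : 0 < Real.exp ((a - b) / 2) + Real.exp (-((a - b) / 2)) := by positivity
    field_simp
  rw [h1, h2, ← mul_sub, ← mul_add, h3]
  ring

theorem D_Xi {A : V → V → ℝ} (hA : Coup A) (hrow : ∀ v, ∑ u, A v u ≤ 1 / 10) (k : V)
    (σ : V → Bool) : D k (Xi A) σ = mk A k σ * M k (Xi A) σ := by
  have h := exp_sub_exp (lXi A (Function.update σ k true)) (lXi A (Function.update σ k false))
  unfold mk D M
  rw [Xi_eq_exp hA hrow, Xi_eq_exp hA hrow, h]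
  ring

/-- The spin at `k` may be replaced by its conditional mean. -/
theorem sum_sp_mul {A : V → V → ℝ} (hA : Coup A) (hrow : ∀ v, ∑ u, A v u ≤ 1 / 10) (k : V)
    {g : (V → Bool) → ℝ} (hg : ∀ σ b, g (Function.update σ k b) = g σ) :
    ∑ σ, Xi A σ * (sp k σ * g σ) = ∑ σ, Xi A σ * (mk A k σ * g σ) := by
  rw [← sum_M k (fun σ => Xi A σ * (sp k σ * g σ)), ← sum_M k (fun σ => Xi A σ * (mk A k σ * g σ))]
  refine Finset.sum_congr rfl fun σ _ => ?_
  obtain ⟨hD, hM⟩ := indep_DM hg
  obtain ⟨hD', hM'⟩ := indep_DM (i := k) (g := fun σ => mk A k σ * g σ)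
    (fun σ b => by rw [mk_update, hg])
  rw [M_mul k (Xi A) (fun σ => sp k σ * g σ), M_mul k (sp k) g, D_mul k (sp k) g, M_sp_self,
    D_sp_self, hD, hM, M_mul k (Xi A) (fun σ => mk A k σ * g σ), hD', hM', D_Xi hA hrow]
  ring

theorem D_mk_le {A : V → V → ℝ} (hA : Coup A) (hrow : ∀ v, ∑ u, A v u ≤ 1 / 10) (k w : V)
    (σ : V → Bool) : D w (mk A k) σ ≤ cc A k w := by
  by_cases hwk : w = k
  · subst hwk
    rw [(indep_DM (i := w) (g := mk A w) (mk_update A w)).1]
    exact cc_nonneg hA w w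
  · have h1 := DD_lXi hA hrow k w hwk σ
    have h2 := cc_nonneg hA k w
    rw [D] at h1 ⊢
    unfold mk
    rcases le_total (D k (lXi A) (Function.update σ w false))
      (D k (lXi A) (Function.update σ w true)) with h | h
    · have := tanh_sub_le h
      linarith
    · have := tanh_mono h
      linarith

/-! ### The comparison function -/

/-- The linear function with coefficients `x`. -/
def lin (x : V → ℝ) (σ : V → Bool) : ℝ := ∑ l, x l * sp l σ

theorem D_lin (x : V → ℝ) (w : V) (σ : V → Bool) : D w (lin x) σ = x w := by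
  unfold lin
  have h1 := D_sum w (fun l σ => x l * sp l σ) σ
  rw [show D w (fun σ => ∑ l, x l * sp l σ) σ = D w (fun σ => ∑ v, (fun l σ => x l * sp l σ) v σ) σ
    from rfl, h1]
  have h2 : ∀ l, D w (fun σ => x l * sp l σ) σ = if l = w then x w else 0 := by
    intro l
    have h3 : D w (fun σ => x l * sp l σ) σ = x l * D w (sp l) σ := by unfold D; ring
    rw [h3]
    by_cases h : l = w
    · subst h
      rw [D_sp_self, if_pos rfl, mul_one]
    · rw [D_sp_ne h, if_neg h, mul_zero]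
  rw [Finset.sum_congr rfl fun l _ => h2 l, Finset.sum_ite_eq', if_pos (Finset.mem_univ w)]

theorem lin_mono {x : V → ℝ} (hx : ∀ v, 0 ≤ x v) : Monotone (lin x) :=
  monotone_of_D fun v σ => by rw [D_lin]; exact hx v

omit [DecidableEq V] in
theorem lin_neg (x : V → ℝ) (σ : V → Bool) : lin x (neg σ) = -lin x σ := by
  unfold lin
  rw [← Finset.sum_neg_distrib]
  refine Finset.sum_congr rfl fun l _ => ?_
  rw [sp_neg]
  ring

/-- The unnormalised two point function against `lin x`. -/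
noncomputable def pp (A : V → V → ℝ) (x : V → ℝ) (w : V) : ℝ :=
  ∑ σ, Xi A σ * (sp w σ * lin x σ)

/-- The FKG inequality for `Ξ`. -/
theorem fkg_bound {A : V → V → ℝ} (hA : Coup A) (hrow : ∀ v, ∑ u, A v u ≤ 1 / 10) {x : V → ℝ}
    (hx : ∀ v, 0 ≤ x v) {g : (V → Bool) → ℝ} {c : V → ℝ} (hg : ∀ w σ, D w g σ ≤ c w) :
    ∑ σ, Xi A σ * (g σ * lin x σ) ≤ ∑ w, c w * pp A x w := by
  have hmono : Monotone (fun σ => lin c σ - g σ) := by
    refine monotone_of_D fun v σ => ?_
    have h1 : D v (fun σ => lin c σ - g σ) σ = D v (lin c) σ - D v g σ := by unfold D; ring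
    rw [h1, D_lin]
    have := hg v σ
    linarith
  have h0 : ip (Xi A) (lin x) (fun _ => 1) = 0 :=
    ip_odd_even (Xi_neg A) (fun σ => lin_neg x σ) (fun σ => rfl)
  have h1 := fkg_ip (Xi_pos hA hrow) (Xi_fkg hA hrow) (lin_mono hx) hmono h0
  have h2 : ip (Xi A) (lin x) (fun σ => lin c σ - g σ) =
      ∑ w, c w * pp A x w - ∑ σ, Xi A σ * (g σ * lin x σ) := by
    unfold ip pp
    have h3 : ∑ w, c w * ∑ σ, Xi A σ * (sp w σ * lin x σ) =
        ∑ σ, Xi A σ * (lin c σ * lin x σ) := by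
      rw [Finset.sum_congr rfl fun w _ => Finset.mul_sum _ _ _, Finset.sum_comm]
      refine Finset.sum_congr rfl fun σ _ => ?_
      rw [show lin c σ = ∑ w, c w * sp w σ from rfl, Finset.sum_mul, Finset.mul_sum]
      exact Finset.sum_congr rfl fun w _ => by ring
    rw [h3, ← Finset.sum_sub_distrib]
    exact Finset.sum_congr rfl fun σ _ => by ring
  rw [h2] at h1
  linarith

/-- The self consistent inequality. -/
theorem pp_le {A : V → V → ℝ} (hA : Coup A) (hrow : ∀ v, ∑ u, A v u ≤ 1 / 10) {x : V → ℝ}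
    (hx : ∀ v, 0 ≤ x v) (k : V) :
    pp A x k ≤ x k * ∑ σ, Xi A σ + ∑ w, cc A k w * pp A x w := by
  have hF : ∀ σ b, (fun σ => lin x σ - x k * sp k σ) (Function.update σ k b) =
      (fun σ => lin x σ - x k * sp k σ) σ := by
    intro σ b
    simp only
    unfold lin
    rw [← Finset.add_sum_erase _ _ (Finset.mem_univ k),
      ← Finset.add_sum_erase univ (fun l => x l * sp l σ) (Finset.mem_univ k),
      add_sub_cancel_left, add_sub_cancel_left]
    refine Finset.sum_congr rfl fun l hl => ?_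
    rw [sp_update_ne (Finset.ne_of_mem_erase hl)]
  have h1 : pp A x k = x k * ∑ σ, Xi A σ +
      ∑ σ, Xi A σ * (sp k σ * (lin x σ - x k * sp k σ)) := by
    unfold pp
    rw [Finset.mul_sum, ← Finset.sum_add_distrib]
    refine Finset.sum_congr rfl fun σ _ => ?_
    have := sp_sq k σ
    linear_combination (Xi A σ * x k) * this
  have h2 := sum_sp_mul hA hrow k (g := fun σ => lin x σ - x k * sp k σ) hF
  have h3 : ∑ σ, Xi A σ * (mk A k σ * (lin x σ - x k * sp k σ)) =
      ∑ σ, Xi A σ * (mk A k σ * lin x σ) - x k * ∑ σ, Xi A σ * (sp k σ * mk A k σ) := by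
    rw [Finset.mul_sum, ← Finset.sum_sub_distrib]
    exact Finset.sum_congr rfl fun σ _ => by ring
  have h4 := sum_sp_mul hA hrow k (mk_update A k)
  have h5 : 0 ≤ ∑ σ, Xi A σ * (mk A k σ * mk A k σ) :=
    Finset.sum_nonneg fun σ _ => mul_nonneg (Xi_pos hA hrow σ).le (mul_self_nonneg _)
  have h6 := fkg_bound hA hrow hx (g := mk A k) (c := cc A k) (D_mk_le hA hrow k)
  have h7 := mul_nonneg (hx k) h5
  rw [h1, h2, h3, h4]
  linarith

omit [DecidableEq V] in
theorem sum_cc_le {A : V → V → ℝ} (hA : Coup A) (hrow : ∀ v, ∑ u, A v u ≤ 1 / 10) (k : V) :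
    ∑ w, cc A k w ≤ 29 / 45 := by
  have h1 : ∑ w, cc A k w = 16 / 3 * ∑ w, A k w + 100 / 9 * ∑ v, A v k * ∑ w, A v w := by
    unfold cc
    rw [Finset.sum_add_distrib, ← Finset.mul_sum, ← Finset.mul_sum, Finset.sum_comm]
    congr 2
    exact Finset.sum_congr rfl fun v _ => (Finset.mul_sum _ _ _).symm
  have h2 : ∑ v, A v k * ∑ w, A v w ≤ ∑ v, A k v * (1 / 10) := by
    refine Finset.sum_le_sum fun v _ => ?_
    rw [hA.symm v k]
    exact mul_le_mul_of_nonneg_left (hrow v) (hA.nonneg k v)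
  rw [← Finset.sum_mul] at h2
  have h3 := hrow k
  rw [h1]
  linarith

omit [DecidableEq V] in
theorem sum_cc_mul_le {A : V → V → ℝ} (hA : Coup A) {x : V → ℝ}
    (hx : ∀ v, 0 ≤ x v) (hAx : ∀ i, ∑ v, A v i * x v ≤ 10 / 99 * x i) (k : V) :
    ∑ w, cc A k w * x w ≤ 13 / 18 * x k := by
  have hAx' : ∀ i, ∑ v, A i v * x v ≤ 10 / 99 * x i := fun i => by
    rw [Finset.sum_congr rfl fun v _ => by rw [hA.symm i v]]
    exact hAx i
  have h1 : ∑ w, cc A k w * x w =
      16 / 3 * ∑ w, A k w * x w + 100 / 9 * ∑ v, A v k * ∑ w, A v w * x w := by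
    unfold cc
    simp only [Finset.mul_sum, Finset.sum_mul, add_mul, Finset.sum_add_distrib]
    rw [Finset.sum_comm (s := univ) (t := univ) (f := fun w v => 100 / 9 * (A v k * A v w) * x w)]
    congr 1
    · exact Finset.sum_congr rfl fun w _ => by ring
    · exact Finset.sum_congr rfl fun v _ => Finset.sum_congr rfl fun w _ => by ring
  have h2 : ∑ v, A v k * ∑ w, A v w * x w ≤ ∑ v, A v k * (10 / 99 * x v) :=
    Finset.sum_le_sum fun v _ => mul_le_mul_of_nonneg_left (hAx' v) (hA.nonneg v k)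
  have h3 : ∑ v, A v k * (10 / 99 * x v) = 10 / 99 * ∑ v, A v k * x v := by
    rw [Finset.mul_sum]
    exact Finset.sum_congr rfl fun v _ => by ring
  have h4 := hAx k
  have h5 := hAx' k
  have h6 := hx k
  rw [h1]
  linarith

/-- **The two point bound.** -/
theorem pp_bound {A : V → V → ℝ} (hA : Coup A) (hrow : ∀ v, ∑ u, A v u ≤ 1 / 10) {x : V → ℝ}
    (hx : ∀ v, 0 ≤ x v) (hAx : ∀ i, ∑ v, A v i * x v ≤ 10 / 99 * x i) (k : V) :
    pp A x k ≤ 18 / 5 * x k * ∑ σ, Xi A σ := by
  obtain ⟨Z, hZ⟩ : ∃ Z, Z = ∑ σ, Xi A σ := ⟨_, rfl⟩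
  have hZ0 : 0 ≤ Z := by rw [hZ]; exact Finset.sum_nonneg fun σ _ => (Xi_pos hA hrow σ).le
  rw [← hZ]
  obtain ⟨j, -, hj⟩ := Finset.exists_max_image Finset.univ
    (fun i => pp A x i - 18 / 5 * x i * Z) ⟨k, Finset.mem_univ k⟩
  have hj0 : pp A x j - 18 / 5 * x j * Z ≤ 0 := by
    by_contra hcon
    push Not at hcon
    obtain ⟨P, hP⟩ : ∃ P, P = pp A x j - 18 / 5 * x j * Z := ⟨_, rfl⟩
    rw [← hP] at hcon
    have h1 := pp_le hA hrow hx j
    rw [← hZ] at h1
    have h2 : ∑ w, cc A j w * pp A x w ≤ ∑ w, (cc A j w * P + 18 / 5 * Z * (cc A j w * x w)) := by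
      refine Finset.sum_le_sum fun w _ => ?_
      have e1 := hj w (Finset.mem_univ w)
      have e2 : pp A x w ≤ P + 18 / 5 * x w * Z := by linarith
      have e3 := mul_le_mul_of_nonneg_left e2 (cc_nonneg hA j w)
      linarith
    rw [Finset.sum_add_distrib, ← Finset.sum_mul, ← Finset.mul_sum] at h2
    have h3 := mul_le_mul_of_nonneg_right (sum_cc_le hA hrow j) hcon.le
    have h4 := mul_le_mul_of_nonneg_left (sum_cc_mul_le hA hx hAx j)
      (mul_nonneg (by norm_num : (0 : ℝ) ≤ 18 / 5) hZ0)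
    have h5 : pp A x j = P + 18 / 5 * x j * Z := by rw [hP]; ring
    nlinarith
  have := hj k (Finset.mem_univ k)
  linarith

theorem sum_hat_eq (A : V → V → ℝ) (x : V → ℝ) (k : V) :
    ∑ l, x l * hat (Xi A) ({k} ∆ {l}) = pp A x k / 2 ^ Fintype.card V := by
  unfold pp hat lin
  rw [Finset.sum_congr rfl fun l _ => (mul_div_assoc (x l) _ _).symm, ← Finset.sum_div]
  congr 1
  rw [Finset.sum_congr rfl fun l _ => Finset.mul_sum _ _ _, Finset.sum_comm]
  refine Finset.sum_congr rfl fun σ _ => ?_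
  rw [Finset.mul_sum, Finset.mul_sum]
  refine Finset.sum_congr rfl fun l _ => ?_
  rw [chi_symmDiff, chi_single, chi_single]
  ring

theorem two_point {A : V → V → ℝ} (hA : Coup A) (hrow : ∀ v, ∑ u, A v u ≤ 1 / 10) {x : V → ℝ}
    (hx : ∀ v, 0 ≤ x v) (hAx : ∀ i, ∑ v, A v i * x v ≤ 10 / 99 * x i) (k : V) :
    ∑ l, x l * hat (Xi A) ({k} ∆ {l}) ≤ 18 / 5 * x k * hat (Xi A) ∅ := by
  rw [sum_hat_eq]
  have h1 : hat (Xi A) ∅ = (∑ σ, Xi A σ) / 2 ^ Fintype.card V := by
    unfold hat
    congr 1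
    exact Finset.sum_congr rfl fun σ _ => by rw [chi_empty, mul_one]
  rw [h1, ← mul_div_assoc]
  exact div_le_div_of_nonneg_right (pp_bound hA hrow hx hAx k) (by positivity)

/-- `N B = ∑ l, x l * hat (Xi A) (B ∆ {l}) / hat (Xi A) ∅`. -/
theorem exists_N {A : V → V → ℝ} (hA : Coup A) (hrow : ∀ v, ∑ u, A v u ≤ 1 / 10) {x : V → ℝ}
    (hx : ∀ v, 0 ≤ x v) (hAx : ∀ i, ∑ v, A v i * x v ≤ 10 / 99 * x i) :
    ∃ N : Finset V → ℝ, Avg A N (2 / 5) ∧ (∀ k, x k ≤ N {k}) ∧ (∀ k, N {k} ≤ 18 / 5 * x k) := by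
  have h0 := hat_Xi_empty_pos hA hrow
  refine ⟨fun B => (∑ l, x l * hat (Xi A) (B ∆ {l})) / hat (Xi A) ∅, ⟨fun B => ?_, fun v C => ?_⟩,
    fun k => ?_, fun k => ?_⟩
  · exact div_nonneg (Finset.sum_nonneg fun l _ => mul_nonneg (hx l) (hat_Xi_nonneg hA hrow _))
      h0.le
  · have h1 : ∑ u, A v u * ((∑ l, x l * hat (Xi A) (({u} ∆ C) ∆ {l})) / hat (Xi A) ∅) =
        (∑ l, x l * ∑ u, A v u * hat (Xi A) ({u} ∆ (C ∆ {l}))) / hat (Xi A) ∅ := by
      rw [Finset.sum_congr rfl fun u _ => (mul_div_assoc _ _ _).symm, ← Finset.sum_div]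
      congr 1
      rw [Finset.sum_congr rfl fun u _ => Finset.mul_sum _ _ _, Finset.sum_comm]
      refine Finset.sum_congr rfl fun l _ => ?_
      rw [Finset.mul_sum]
      refine Finset.sum_congr rfl fun u _ => ?_
      rw [symmDiff_assoc]
      ring
    rw [h1, ← mul_div_assoc, div_le_div_iff_of_pos_right h0, Finset.mul_sum]
    refine Finset.sum_le_sum fun l _ => ?_
    have h2 := mul_le_mul_of_nonneg_left (Xi_step hA hrow v (C ∆ {l})) (hx l)
    rw [← symmDiff_assoc] at h2
    refine h2.trans (le_of_eq ?_)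
    ring
  · simp only
    rw [le_div_iff₀ h0]
    have h1 := Finset.single_le_sum (f := fun l => x l * hat (Xi A) ({k} ∆ {l}))
      (fun l _ => mul_nonneg (hx l) (hat_Xi_nonneg hA hrow _)) (Finset.mem_univ k)
    simp only [symmDiff_self] at h1
    exact h1
  · simp only
    rw [div_le_iff₀ h0]
    exact two_point hA hrow hx hAx k

end Pool.Agent.Lib.MP_f82811_pr.HF
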