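import Pool.Agent.Lib.MP_f82811_pr.HF.Defs
import Pool.Agent.Lib.MP_f82811_pr.WC.Moments

/-!
# The weight `Ξ`: nonnegative Walsh coefficients, averaged inequality, lattice condition
-/

set_option autoImplicit false

namespace Pool.Agent.Lib.MP_f82811_pr.HF

open Finset HT WC symmDiff

variable {V : Type*} [Fintype V] [DecidableEq V]

omit [DecidableEq V] in
theorem abs_yy_le {A : V → V → ℝ} (hA : Coup A) (hrow : ∀ v, ∑ u, A v u ≤ 1 / 10) (v : V)
    (σ : V → Bool) : |yy A v σ| ≤ 1 / 4 := by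
  unfold yy
  rw [abs_mul, abs_mul, abs_sp, one_mul, abs_of_pos (by norm_num : (0 : ℝ) < 5 / 2)]
  have := abs_fld_le hA hrow v σ
  linarith

omit [DecidableEq V] in
theorem one_sub_yy_pos {A : V → V → ℝ} (hA : Coup A) (hrow : ∀ v, ∑ u, A v u ≤ 1 / 10) (v : V)
    (σ : V → Bool) : 0 < 1 - yy A v σ := by
  have := (abs_le.1 (abs_yy_le hA hrow v σ)).2
  linarith

omit [DecidableEq V] in
theorem Xi_pos {A : V → V → ℝ} (hA : Coup A) (hrow : ∀ v, ∑ u, A v u ≤ 1 / 10)
    (σ : V → Bool) : 0 < Xi A σ :=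
  Finset.prod_pos fun v _ => one_div_pos.2 (one_sub_yy_pos hA hrow v σ)

omit [DecidableEq V] in
theorem yy_neg (A : V → V → ℝ) (v : V) (σ : V → Bool) : yy A v (neg σ) = yy A v σ := by
  unfold yy
  rw [sp_neg, fld_neg]
  ring

omit [DecidableEq V] in
theorem Xi_neg (A : V → V → ℝ) (σ : V → Bool) : Xi A (neg σ) = Xi A σ := by
  unfold Xi
  exact Finset.prod_congr rfl fun v _ => by rw [yy_neg]

/-! ### Nonnegative coefficients -/

theorem yy_eq (A : V → V → ℝ) (v : V) (σ : V → Bool) :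
    yy A v σ = ∑ u, 5 / 2 * A v u * chi ({v} ∆ {u}) σ := by
  unfold yy fld
  rw [Finset.mul_sum, Finset.mul_sum]
  refine Finset.sum_congr rfl fun u _ => ?_
  rw [chi_symmDiff, chi_single, chi_single]
  ring

theorem hat_yy_mul (A : V → V → ℝ) (v : V) (g : (V → Bool) → ℝ) (S : Finset V) :
    hat (fun σ => yy A v σ * g σ) S = ∑ u, 5 / 2 * A v u * hat g (S ∆ ({v} ∆ {u})) := by
  have h1 : (fun σ => yy A v σ * g σ) =
      fun σ => ∑ u, 5 / 2 * A v u * (chi ({v} ∆ {u}) σ * g σ) := by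
    funext σ
    rw [yy_eq, Finset.sum_mul]
    exact Finset.sum_congr rfl fun u _ => by ring
  rw [h1, hat_sum]
  refine Finset.sum_congr rfl fun u _ => ?_
  rw [hat_smul, hat_chi_mul]

theorem hat_factor_nonneg {A : V → V → ℝ} (hA : Coup A) (hrow : ∀ v, ∑ u, A v u ≤ 1 / 10)
    (v : V) (S : Finset V) : 0 ≤ hat (fun σ => 1 / (1 - yy A v σ)) S := by
  have hid : ∀ S : Finset V, hat (fun σ => 1 / (1 - yy A v σ)) S =
      (if S = ∅ then 1 else 0) +
        ∑ u, 5 / 2 * A v u * hat (fun σ => 1 / (1 - yy A v σ)) (S ∆ ({v} ∆ {u})) := by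
    intro S
    rw [← hat_yy_mul, ← hat_const (V := V) 1 S, ← hat_add]
    congr 1
    funext σ
    have := (one_sub_yy_pos hA hrow v σ).ne'
    field_simp
    ring
  obtain ⟨T, -, hT⟩ := Finset.exists_min_image Finset.univ
    (fun S => hat (fun σ => 1 / (1 - yy A v σ)) S) ⟨S, Finset.mem_univ S⟩
  refine le_trans ?_ (hT S (Finset.mem_univ S))
  by_contra hcon
  push Not at hcon
  have h1 := hid T
  set m := hat (fun σ => 1 / (1 - yy A v σ)) T with hm
  have h2 : (∑ u, 5 / 2 * A v u) * m ≤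
      ∑ u, 5 / 2 * A v u * hat (fun σ => 1 / (1 - yy A v σ)) (T ∆ ({v} ∆ {u})) := by
    rw [Finset.sum_mul]
    refine Finset.sum_le_sum fun u _ => ?_
    exact mul_le_mul_of_nonneg_left (hT _ (Finset.mem_univ _))
      (mul_nonneg (by norm_num) (hA.nonneg v u))
  have h3 : ∑ u, 5 / 2 * A v u ≤ 1 / 4 := by
    rw [← Finset.mul_sum]
    have := hrow v
    linarith
  have h4 : (0 : ℝ) ≤ if T = ∅ then 1 else 0 := by split_ifs <;> norm_num
  have h5 : 1 / 4 * m ≤ (∑ u, 5 / 2 * A v u) * m :=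
    mul_le_mul_of_nonpos_right h3 hcon.le
  linarith

/-- The product of the factors over a set. -/
noncomputable def XiS (A : V → V → ℝ) (s : Finset V) (σ : V → Bool) : ℝ :=
  ∏ v ∈ s, 1 / (1 - yy A v σ)

theorem hat_XiS_nonneg {A : V → V → ℝ} (hA : Coup A) (hrow : ∀ v, ∑ u, A v u ≤ 1 / 10)
    (s S : Finset V) : 0 ≤ hat (XiS A s) S := by
  induction s using Finset.induction generalizing S with
  | empty =>
    have h1 : XiS A ∅ = fun _ => 1 := by
      funext σ
      unfold XiS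
      rw [Finset.prod_empty]
    rw [h1, hat_const]
    split_ifs <;> norm_num
  | insert v s hv ih =>
    have h1 : XiS A (insert v s) = fun σ => (1 / (1 - yy A v σ)) * XiS A s σ := by
      funext σ
      unfold XiS
      rw [Finset.prod_insert hv]
    rw [h1, hat_mul (fun σ => 1 / (1 - yy A v σ)) (XiS A s)]
    exact Finset.sum_nonneg fun T _ => mul_nonneg (hat_factor_nonneg hA hrow v T) (ih _)

theorem hat_Xi_nonneg {A : V → V → ℝ} (hA : Coup A) (hrow : ∀ v, ∑ u, A v u ≤ 1 / 10)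
    (S : Finset V) : 0 ≤ hat (Xi A) S :=
  hat_XiS_nonneg hA hrow univ S

theorem hat_Xi_empty_pos {A : V → V → ℝ} (hA : Coup A) (hrow : ∀ v, ∑ u, A v u ≤ 1 / 10) :
    0 < hat (Xi A) ∅ := by
  unfold hat
  refine div_pos (Finset.sum_pos (fun σ _ => ?_) ⟨fun _ => true, Finset.mem_univ _⟩)
    (by positivity)
  rw [chi_empty, mul_one]
  exact Xi_pos hA hrow σ

theorem Xi_step {A : V → V → ℝ} (hA : Coup A) (hrow : ∀ v, ∑ u, A v u ≤ 1 / 10) (v : V)
    (C : Finset V) :
    ∑ u, A v u * hat (Xi A) ({u} ∆ C) ≤ 2 / 5 * hat (Xi A) ({v} ∆ C) := by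
  have h1 := hat_yy_mul A v (Xi A) ({v} ∆ C)
  have h2 : (fun σ => yy A v σ * Xi A σ) = fun σ => Xi A σ - XiS A (univ.erase v) σ := by
    funext σ
    have h3 : Xi A σ = (1 / (1 - yy A v σ)) * XiS A (univ.erase v) σ := by
      unfold Xi XiS
      exact (Finset.mul_prod_erase univ (fun u => 1 / (1 - yy A u σ)) (Finset.mem_univ v)).symm
    have h4 := (one_sub_yy_pos hA hrow v σ).ne'
    rw [h3]
    field_simp
    ring
  rw [h2, hat_sub] at h1
  have h5 := hat_XiS_nonneg hA hrow (univ.erase v) ({v} ∆ C)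
  have h6 : ∑ u, 5 / 2 * A v u * hat (Xi A) (({v} ∆ C) ∆ ({v} ∆ {u})) =
      5 / 2 * ∑ u, A v u * hat (Xi A) ({u} ∆ C) := by
    rw [Finset.mul_sum]
    refine Finset.sum_congr rfl fun u _ => ?_
    have h7 : ({v} ∆ C) ∆ ({v} ∆ {u}) = ({u} : Finset V) ∆ C := by
      ext w
      simp only [Finset.mem_symmDiff]
      tauto
    rw [h7]
    ring
  rw [h6] at h1
  linarith

/-! ### The lattice condition -/

omit [DecidableEq V] in
theorem fld_inf_sup (A : V → V → ℝ) (v : V) (σ τ : V → Bool) :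
    fld A v σ + fld A v τ = fld A v (σ ⊓ τ) + fld A v (σ ⊔ τ) := by
  unfold fld
  rw [← Finset.sum_add_distrib, ← Finset.sum_add_distrib]
  refine Finset.sum_congr rfl fun u _ => ?_
  unfold sp
  rw [Pi.inf_apply, Pi.sup_apply]
  cases σ u <;> cases τ u <;> simp [spin_true, spin_false]

omit [DecidableEq V] in
theorem fld_mono' {A : V → V → ℝ} (hA : Coup A) (v : V) {σ τ : V → Bool} (h : σ ≤ τ) :
    fld A v σ ≤ fld A v τ := by
  unfold fld
  refine Finset.sum_le_sum fun u _ => mul_le_mul_of_nonneg_left ?_ (hA.nonneg v u)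
  have h1 : σ u ≤ τ u := h u
  unfold sp
  revert h1
  cases σ u <;> cases τ u <;> intro h1
  · exact le_rfl
  · rw [spin_true, spin_false]
    norm_num
  · exact absurd h1 (by decide)
  · exact le_rfl

omit [DecidableEq V] in
theorem Xi_fkg {A : V → V → ℝ} (hA : Coup A) (hrow : ∀ v, ∑ u, A v u ≤ 1 / 10)
    (σ τ : V → Bool) : Xi A σ * Xi A τ ≤ Xi A (σ ⊓ τ) * Xi A (σ ⊔ τ) := by
  unfold Xi
  rw [← Finset.prod_mul_distrib, ← Finset.prod_mul_distrib]
  refine Finset.prod_le_prod (fun v _ => ?_) fun v _ => ?_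
  · exact mul_nonneg (one_div_nonneg.2 (one_sub_yy_pos hA hrow v σ).le)
      (one_div_nonneg.2 (one_sub_yy_pos hA hrow v τ).le)
  · have p1 := one_sub_yy_pos hA hrow v σ
    have p2 := one_sub_yy_pos hA hrow v τ
    have p3 := one_sub_yy_pos hA hrow v (σ ⊓ τ)
    have p4 := one_sub_yy_pos hA hrow v (σ ⊔ τ)
    rw [one_div_mul_one_div, one_div_mul_one_div]
    refine one_div_le_one_div_of_le (mul_pos p3 p4) ?_
    have e1 := fld_inf_sup A v σ τ
    have e2 := fld_mono' hA v (inf_le_left : σ ⊓ τ ≤ σ)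
    have e3 := fld_mono' hA v (inf_le_right : σ ⊓ τ ≤ τ)
    have b1 := abs_le.1 (abs_fld_le hA hrow v σ)
    have b2 := abs_le.1 (abs_fld_le hA hrow v τ)
    have b3 := abs_le.1 (abs_fld_le hA hrow v (σ ⊓ τ))
    unfold yy sp
    rw [Pi.inf_apply, Pi.sup_apply]
    have e4 : 0 ≤ (fld A v σ - fld A v (σ ⊓ τ)) * (fld A v τ - fld A v (σ ⊓ τ)) :=
      mul_nonneg (by linarith) (by linarith)
    have e5 : fld A v (σ ⊔ τ) = fld A v σ + fld A v τ - fld A v (σ ⊓ τ) := by linarith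
    rw [e5]
    have f1 : (false ⊓ false : Bool) = false := rfl
    have f2 : (false ⊓ true : Bool) = false := rfl
    have f3 : (true ⊓ false : Bool) = false := rfl
    have f4 : (true ⊓ true : Bool) = true := rfl
    have g1 : (false ⊔ false : Bool) = false := rfl
    have g2 : (false ⊔ true : Bool) = true := rfl
    have g3 : (true ⊔ false : Bool) = true := rfl
    have g4 : (true ⊔ true : Bool) = true := rfl
    cases σ v <;> cases τ v
    · rw [f1, g1, spin_false]
      nlinarith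
    · rw [f2, g2, spin_false, spin_true]
      nlinarith
    · rw [f3, g3, spin_false, spin_true]
      nlinarith
    · rw [f4, g4, spin_true]
      nlinarith

end Pool.Agent.Lib.MP_f82811_pr.HF
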